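import Pool.Agent.Lib.ZK.Blue

/-! Project zk: algebra of forms. -/

open scoped Classical Topology ContDiff ComplexOrder Matrix
open Set

noncomputable section

namespace Pool.Agent.Lib.ZK

open Pool.Agent.Lib.HS32

namespace KIT

variable {n : ℕ} {M : Mf n} {θ : M.Fam (Mat n)} {f : M.X → ℝ}

theorem hs_mul (hf : M.Sm f) (k : ℝ) : M.All fun e z =>
    (k • θ + M.hs fun x => k * f x) e z = (k • (θ + M.hs f)) e z := fun e he z hz => by
  simp only [Pi.add_apply, Pi.smul_apply, smul_add,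
    ((mLAP n M f f hf hf).1 k e he z hz).2.2.2.1]

end KIT

open KIT in
theorem st_KIT : St_KIT := by
  intro n M _ H θ hH hθ
  have h0 : ∀ e : ℝ, 0 ≤ e → M.Le 0 (e • H) := fun e he => by
    simpa using hH.toMet.le_smul he
  refine ⟨fun e => ⟨hθ.add (hH.toClo.smul e), hθ.smul e⟩, ?_, fun e e' a hee ha hk => ?_,
    fun e C q η χ l he b => ⟨b.sm, b.sl, b.ub, b.l0, ?_, b.lq, b.sml⟩, fun k C₀ hk h => ?_,
    fun k b E hk h => ⟨h.sm.const_mul k, (h.kae.smul hk).congr (hs_mul h.sm k),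
      fun x => mul_nonpos_of_nonneg_of_nonpos hk.le (h.np x), fun ψ s m p x => ?_⟩⟩
  · obtain ⟨C, -, h, -⟩ := (mBD n M H hH.toMet).1 θ hθ.toForm
    refine ⟨C + 1, fun e he => ?_⟩
    rw [add_smul]
    exact h.add (hH.toMet.le_smul he)
  · have c := (hθ.add (hH.toClo.smul e)).add ((mHES n M).1 a ha)
    have m := hk.toMet.of_le c.toForm
      (((Mf.Le.refl θ).add (hH.toMet.le_smul hee)).add (Mf.Le.refl _))
    exact ⟨⟨c, m.pos⟩, m.nonneg⟩
  · have h := b.ad.add (h0 e he)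
    rwa [add_zero, show θ + M.ric H + M.hs χ + fm M l H + e • H =
      θ + e • H + M.ric H + M.hs χ + fm M l H by abel] at h
  · rw [mul_smul]
    exact h.smul hk
  · have h1 := hs_mul (θ := k • θ) s k⁻¹
    rw [inv_smul_smul₀ hk.ne'] at h1
    have h2 := h.mx _ (s.const_mul k⁻¹) ((m.smul (inv_pos.2 hk)).congr h1)
      (fun y => mul_nonpos_of_nonneg_of_nonpos (inv_pos.2 hk).le (p y)) x
    rw [inv_mul_le_iff₀ hk] at h2
    linarith

end Pool.Agent.Lib.ZK
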