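import Pool.Agent.Lib.ZK.Blue
import Pool.Agent.Lib.ZK47.Blue

/-! From the theorem of the blueprint to the form used by the outer layer. -/

open scoped Classical Topology ContDiff ComplexOrder Matrix
open Set MeasureTheory Filter

noncomputable section

namespace Pool.Agent.Lib.ZK

open Pool.Agent.Lib.HS32

/-- A continuous loss may be replaced by a smooth one. -/
theorem klt_of_rg {n : ℕ} {M : Mf n} [M.Cpt] {H B : M.Fam (Mat n)} {χ lam : ℝ → M.X → ℝ} {C q : ℝ}
    (hH : M.Met H) (h : ZK47.Rg M H B χ lam C q) : Klt M H (B - M.ric H) := by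
  obtain ⟨-, hfin, -, hv, hint, -⟩ := mMU n M H hH
  obtain ⟨v, hv'⟩ : ∃ v, v = (M.mu H).real univ := ⟨_, rfl⟩
  rw [← hv'] at hv
  refine ⟨|C| + 1, q, h.q1, fun η hη => ?_⟩
  obtain ⟨δ, hδ, δ1, δ2⟩ : ∃ δ : ℝ, 0 < δ ∧ 2 * δ ≤ 1 ∧ 2 * δ * v ≤ η / 2 :=
    ⟨min (1 / 2) (η / (4 * v)), by positivity, by linarith [min_le_left (1 / 2) (η / (4 * v))], by
      have := (le_div_iff₀ (by positivity)).1 (min_le_right (1 / 2) (η / (4 * v)))
      linarith⟩
  obtain ⟨d, hd1, hd⟩ := (((h.sml.const_mul (|C| / δ)).eventually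
    (gt_mem_nhds (by simpa using hη : |C| / δ * 0 < η / 2))).and
    (Ioc_mem_nhdsGT one_pos)).exists
  have hc := h.ct d hd
  obtain ⟨κ, k1, k2, k3, k4⟩ := (mCOV n M).2.2.2.2.2 {x | 2 * δ ≤ lam d x} {x | δ < lam d x}
    (isClosed_le continuous_const hc) (isOpen_lt continuous_const hc)
    fun x hx => lt_of_lt_of_le (by linarith) (show 2 * δ ≤ lam d x from hx)
  have hC := le_abs_self C
  have hC0 := abs_nonneg C
  have k0 : ∀ x, 0 ≤ |C| * κ x ∧ |C| * κ x ≤ |C| := fun x =>
    ⟨mul_nonneg hC0 (k2 x).1, mul_le_of_le_one_right hC0 (k2 x).2⟩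
  have hl : ∀ x, lam d x ≤ 2 * δ + |C| * κ x := fun x => by
    by_cases hx : 2 * δ ≤ lam d x
    · rw [k3.self_of_nhdsSet x hx]
      linarith [(h.bd d hd x).2]
    · linarith [(k0 x).1, not_le.1 hx]
  have hs : M.Sm fun x => 2 * δ + |C| * κ x := (Mf.sm_const _).add (k1.const_mul _)
  refine ⟨χ d, _, h.sm d hd, hs, fun x => by linarith [h.le d hd x],
    fun x => ⟨by linarith [(k0 x).1], by linarith [(k0 x).2]⟩, fun e he z hz => ?_,
    by linarith [h.itg d hd], ?_⟩
  · have := (h.cur d hd e he z hz).add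
      ((hH.pos e he z hz).posSemidef.smul (sub_nonneg.2 (hl (e.symm z))))
    simp only [Pi.add_apply, Pi.zero_apply, sub_zero, fm, sub_add_cancel]
    rwa [sub_smul, add_assoc, add_sub_cancel] at this
  · calc _ ≤ ∫ x, 2 * δ + |C| / δ * lam d x ∂M.mu H := by
          refine integral_mono (hint ℝ _ hs.continuous) (hint ℝ _ (by fun_prop)) fun x => ?_
          have : |C| * κ x ≤ |C| / δ * lam d x := by
            by_cases hx : κ x = 0
            · rw [hx, mul_zero]
              exact mul_nonneg (by positivity) (h.bd d hd x).1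
            · have h1 : δ < lam d x := k4 (subset_tsupport _ hx)
              rw [div_mul_eq_mul_div, le_div_iff₀ hδ]
              nlinarith [(k0 x).1, (k0 x).2]
          linarith
      _ ≤ η := by
          rw [integral_add (integrable_const _) (hint ℝ _ (by fun_prop)), integral_const,
            integral_const_mul, ← hv', smul_eq_mul]
          linarith

theorem st_MAIN (hZ : St_ZK) : ZK47.St_MAIN := by
  intro n M _ H B χ lam C q hH hB hR hN
  rcases Nat.eq_zero_or_pos n with rfl | hn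
  · exact ⟨fun _ _ => 0, fun _ _ => Mf.sm_const 0,
      fun _ _ => hH.congr fun _ _ _ _ => Subsingleton.elim _ _, fun _ _ _ => le_rfl,
      fun m _ => ⟨1, ∫ _, 1 ∂M.mu H, one_pos, fun _ _ _ => by simp⟩⟩
  obtain ⟨a, h1, -, h3⟩ := hZ n M H _ hn hH
    (hB.sub ((mHES n M).2.2.2.2.2.2.2.2.1 H hH.toMet)) hN (klt_of_rg hH.toMet hR)
  refine ⟨a, fun e he => (h1 e he).sm, fun e he => (h1 e he).kae, fun e he => (h1 e he).np,
    fun m hm => ?_⟩
  obtain ⟨e, he, K, hK⟩ := h3 m hm
  exact ⟨e, K, he.1, fun ε h h' => hK ε ⟨h.1, h'⟩⟩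

end Pool.Agent.Lib.ZK
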