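import Pool.Agent.Lib.ZK.All0
import Pool.Agent.Lib.ZK.B_MAIN
import Pool.Agent.Lib.KP21.E21

/-! The theorem of the project zk without hypotheses, second assembly. -/

namespace Pool.Agent.Lib.ZK

theorem zk2 : St_ZK := zk0 HS21.st_AUBIN HS21.st_RESV

theorem zkMain2 : ZK47.St_MAIN := st_MAIN zk2

end Pool.Agent.Lib.ZK
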