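import Pool.Agent.Lib.HS32.MAll

/-! Blueprint of the project zk: zero Lelong numbers for a nef adjoint class on a compact Kähler
manifold. -/

open scoped Classical Topology ContDiff ComplexOrder Matrix
open Set MeasureTheory Filter

noncomputable section

namespace Pool.Agent.Lib.ZK

open Pool.Agent.Lib.HS32

section defs

variable {n : ℕ} (M : Mf n)

/-- A form multiplied by a function. -/
def fm (u : M.X → ℝ) (T : M.Fam (Mat n)) : M.Fam (Mat n) := fun e z => u (e.symm z) • T e z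

/-- The class of `θ` is nef. -/
def Nef (H θ : M.Fam (Mat n)) : Prop :=
  ∀ e : ℝ, 0 < e → ∃ ψ, M.Sm ψ ∧ M.Kae (θ + e • H + M.hs ψ)

/-- A smooth potential that is maximal up to `b` among the non-positive ones. -/
structure Env (α : M.Fam (Mat n)) (φ : M.X → ℝ) (b : ℝ) : Prop where
  sm : M.Sm φ
  kae : M.Kae (α + M.hs φ)
  np : ∀ x, φ x ≤ 0
  mx : ∀ ψ, M.Sm ψ → M.Met (α + M.hs ψ) → (∀ x, ψ x ≤ 0) → ∀ x, ψ x ≤ φ x + b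

/-- A regularised boundary. -/
structure Bd (H θ : M.Fam (Mat n)) (C q η : ℝ) (χ l : M.X → ℝ) : Prop where
  sm : M.Sm χ
  sl : M.Sm l
  ub : ∀ x, χ x ≤ C
  l0 : ∀ x, 0 ≤ l x ∧ l x ≤ C
  ad : M.Le 0 (θ + M.ric H + M.hs χ + fm M l H)
  lq : ∫ x, Real.exp (-(q * χ x)) ∂M.mu H ≤ C
  sml : ∫ x, l x ∂M.mu H ≤ η

/-- The form `θ` is the sum of the canonical class and of a boundary with mild singularities. -/
def Klt (H θ : M.Fam (Mat n)) : Prop :=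
  ∃ C q : ℝ, 1 < q ∧ ∀ η : ℝ, 0 < η → ∃ χ l, Bd M H θ C q η χ l

/-- The twisting weight. -/
def ps (p : ℝ) (E a : M.X → ℝ) (t : ℝ) (x : M.X) : ℝ :=
  p * Real.log (Real.exp (E x) + Real.exp (a x + t))

/-- The derivative of the twisting weight. -/
def sg (E a : M.X → ℝ) (t : ℝ) (x : M.X) : ℝ :=
  Real.exp (a x + t) / (Real.exp (E x) + Real.exp (a x + t))

/-- A solution of the twisted equation of Aubin and Yau, of mass one. -/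
structure Sol (H α : M.Fam (Mat n)) (V : ℝ) (F w : M.X → ℝ) : Prop where
  vp : 0 < V
  sF : M.Sm F
  sm : M.Sm w
  kae : M.Kae (α + M.hs w)
  eq : ∀ x, M.dq H (α + M.hs w) x = V * Real.exp (w x - F x)
  one : ∫ x, Real.exp (w x - F x) ∂M.mu H = 1

/-- The data at a fixed level. -/
structure Dat (H ϑ : M.Fam (Mat n)) (C₀ : ℝ) (E a : M.X → ℝ) : Prop where
  pos : 0 < n
  kae : M.Kae H
  clo : M.Clo ϑ
  le : M.Le ϑ (C₀ • H)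
  env : Env M ϑ E 1
  sa : M.Sm a
  pa : M.Le 0 (ϑ + M.hs a)
  na : ∀ x, a x ≤ 0

end defs

/-! ### Real analysis and measure theory -/

/-- Extrapolation by convexity. -/
def St_EXT : Prop := ∀ (D : ℝ → ℝ) (κ T t A p : ℝ), Continuous D → 0 ≤ κ → 0 < t → t ≤ T → 0 ≤ A →
  (∀ s ∈ Icc 0 T, ∃ c r : ℝ, 0 < r ∧ ∀ h ∈ Ioc 0 r,
    -(κ * h ^ 2) - c * h ^ 3 ≤ D (s + h) + D (s - h) - 2 * D s) →
  D 0 ≤ A → p * t - A ≤ D t → p * T - 2 * A * T / t - κ * T ^ 2 ≤ D T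

/-- The density is bounded in `L^r` when the two potentials are close in measure. -/
def St_MES : Prop := ∀ (X : Type) [MeasurableSpace X] (μ : Measure X) [IsFiniteMeasure μ]
  (p q r C : ℝ), 0 < p → 1 ≤ r → r < q → ∃ K : ℝ, 0 < K ∧ ∀ t : ℝ, ∃ η : ℝ, 0 < η ∧
    ∀ (y χ : X → ℝ) (B : ℝ), Measurable y → Measurable χ → (∀ x, |χ x| ≤ B) →
      ∫ x, Real.exp (-(q * χ x)) ∂μ ≤ C → μ.real {x | 1 < y x} ≤ η →
      ∫ x, Real.exp (r * (p * min (y x) t - χ x)) ∂μ ≤ K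

/-- From the tail to the exponential integral. -/
def St_LAY : Prop := ∀ (X : Type) [MeasurableSpace X] (μ : Measure X) [IsFiniteMeasure μ]
  (m A t : ℝ), 0 < m → ∃ K : ℝ, ∀ (y : X → ℝ) (B : ℝ), Measurable y → (∀ x, |y x| ≤ B) →
    (∀ T, t ≤ T → μ.real {x | T ≤ y x} ≤ A * Real.exp (-((m + 1) * T))) →
    ∫ x, Real.exp (m * y x) ∂μ ≤ K

/-! ### Envelopes -/

/-- Algebra of forms. -/
def St_KIT : Prop := ∀ (n : ℕ) (M : Mf n) [M.Cpt] (H θ : M.Fam (Mat n)), M.Kae H → M.Clo θ →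
  (∀ e : ℝ, M.Clo (θ + e • H) ∧ M.Clo (e • θ)) ∧
  (∃ C₀ : ℝ, ∀ e : ℝ, e ≤ 1 → M.Le (θ + e • H) (C₀ • H)) ∧
  (∀ (e e' : ℝ) (a : M.X → ℝ), e' ≤ e → M.Sm a → M.Kae (θ + e' • H + M.hs a) →
    M.Kae (θ + e • H + M.hs a) ∧ M.Le 0 (θ + e • H + M.hs a)) ∧
  (∀ (e C q η : ℝ) (χ l : M.X → ℝ), 0 ≤ e → Bd M H θ C q η χ l → Bd M H (θ + e • H) C q η χ l) ∧
  (∀ (k C₀ : ℝ), 0 ≤ k → M.Le θ (C₀ • H) → M.Le (k • θ) ((k * C₀) • H)) ∧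
  ∀ (k b : ℝ) (E : M.X → ℝ), 0 < k → Env M θ E b → Env M (k • θ) (fun x => k * E x) (k * b)

/-- Almost maximal smooth potentials exist. -/
def St_ENV : Prop := ∀ (n : ℕ) (M : Mf n) [M.Cpt] (H α : M.Fam (Mat n)) (ψ : M.X → ℝ) (δ : ℝ),
  0 < n → M.Kae H → M.Clo α → M.Sm ψ → M.Kae (α + M.hs ψ) → 0 < δ → ∃ φ, Env M α φ δ

/-- The almost maximal potentials are close in measure. -/
def St_FAM : Prop := ∀ (n : ℕ) (M : Mf n) [M.Cpt] (H θ : M.Fam (Mat n)) (a : ℝ → M.X → ℝ) (η : ℝ),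
  M.Kae H → M.Clo θ → (∀ e ∈ Ioc (0 : ℝ) 1, Env M (θ + e • H) (a e) e) → 0 < η →
  ∃ e ∈ Ioc (0 : ℝ) 1, ∀ e' ∈ Ioc 0 e, (M.mu H).real {x | 1 < a e x - a e' x} ≤ η

/-! ### The twisted equation -/

/-- Calculus of the twisting weight. -/
def St_PSI : Prop := ∀ (n : ℕ) (M : Mf n) (p t : ℝ) (E a : M.X → ℝ), 0 ≤ p → M.Sm E → M.Sm a →
  M.Sm (ps M p E a t) ∧ M.Sm (sg M E a t) ∧ (∀ x, 0 < sg M E a t x ∧ sg M E a t x < 1) ∧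
  (M.All fun e z => M.hs (ps M p E a t) e z =
    (p * (1 - sg M E a t (e.symm z))) • M.hs E e z + (p * sg M E a t (e.symm z)) • M.hs a e z +
      (p * sg M E a t (e.symm z) * (1 - sg M E a t (e.symm z))) •
        M.ds (fun x => E x - a x) (fun x => E x - a x) e z) ∧
  (∀ G u, M.Met G → M.Sm u → ∀ x, M.gr G (sg M E a t) u x =
    -(sg M E a t x * (1 - sg M E a t x)) * M.gr G (fun x => E x - a x) u x) ∧
  (∀ x, p * E x ≤ ps M p E a t x ∧ p * (a x + t) ≤ ps M p E a t x ∧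
    ps M p E a t x ≤ p * max (E x) (a x + t) + p) ∧
  (∀ s x, |ps M p E a s x - ps M p E a t x| ≤ p * |s - t|) ∧
  ∀ h x, ps M p E a t x + h * (p * sg M E a t x) +
    h ^ 2 / 2 * (p * sg M E a t x * (1 - sg M E a t x)) - p * |h| ^ 3 ≤ ps M p E a (t + h) x

/-- Existence. -/
def St_EXS : Prop := ∀ (n : ℕ) (M : Mf n) [M.Cpt] (H α : M.Fam (Mat n)) (φ : M.X → ℝ), 0 < n →
  M.Kae H → M.Clo α → M.Sm φ → M.Kae (α + M.hs φ) →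
  ∃ V : ℝ, ∀ F, M.Sm F → ∃ w, Sol M H α V F w

/-- The uniform estimate. -/
def St_UNI : Prop := ∀ (n : ℕ) (M : Mf n) [M.Cpt] (H : M.Fam (Mat n)) (C₀ b q K : ℝ), 0 < n →
  M.Kae H → 1 < q → ∃ S : ℝ, 0 ≤ S ∧ ∀ (α : M.Fam (Mat n)) (V : ℝ) (φ F w : M.X → ℝ), M.Clo α →
    M.Le α (C₀ • H) → Env M α φ b → Sol M H α V F w →
    ∫ x, Real.exp (q * (w x - F x)) ∂M.mu H ≤ K → ∀ x y, φ x - w x + w y ≤ S

/-- Upper bounds. -/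
def St_UP : Prop := ∀ (n : ℕ) (M : Mf n) [M.Cpt] (H : M.Fam (Mat n)) (C₀ p C : ℝ), M.Kae H →
  0 < p → ∃ C₁ : ℝ, 0 ≤ C₁ ∧ ∀ (ϑ : M.Fam (Mat n)) (V t : ℝ) (E a χ w : M.X → ℝ), Dat M H ϑ C₀ E a →
    (∀ x, χ x ≤ C) → 0 ≤ t → Sol M H ((p + 1) • ϑ) V (fun x => ps M p E a t x + χ x) w →
    (∀ x, w x ≤ p * t + C₁) ∧ ∀ m : ℝ, (∀ x, w x ≤ m) → ∀ x,
      w x - (p + 1) * E x ≤ m + (p + 1) ∧
      w x - ps M p E a t x ≤ m + (p + 1) - p * t + p * min (E x - a x) t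

/-- The lower bound at one time. -/
def St_LOW : Prop := ∀ (n : ℕ) (M : Mf n) [M.Cpt] (H : M.Fam (Mat n)) (C₀ p C q : ℝ), 0 < n →
  M.Kae H → 0 < p → 1 < q → ∃ C₄ : ℝ, 0 ≤ C₄ ∧ ∀ t : ℝ, 0 ≤ t → ∃ η : ℝ, 0 < η ∧
    ∀ (ϑ : M.Fam (Mat n)) (V : ℝ) (E a χ w : M.X → ℝ), Dat M H ϑ C₀ E a → M.Sm χ →
      (∀ x, χ x ≤ C) → ∫ x, Real.exp (-(q * χ x)) ∂M.mu H ≤ C →
      (M.mu H).real {x | 1 < E x - a x} ≤ η →
      Sol M H ((p + 1) • ϑ) V (fun x => ps M p E a t x + χ x) w →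
      ∀ x, p * t - C₄ ≤ w x - (p + 1) * E x

/-- Bounds at a fixed level, uniform in the boundary. -/
def St_CZB : Prop := ∀ (n : ℕ) (M : Mf n) [M.Cpt] (H ϑ : M.Fam (Mat n)) (C₀ p C q T : ℝ)
  (E a : M.X → ℝ), 0 < p → 1 < q → Dat M H ϑ C₀ E a → ∃ B K : ℝ, ∀ (V : ℝ) (χ w : M.X → ℝ),
    ∀ t ∈ Icc 0 T, M.Sm χ → (∀ x, χ x ≤ C) → ∫ x, Real.exp (-(q * χ x)) ∂M.mu H ≤ C →
      Sol M H ((p + 1) • ϑ) V (fun x => ps M p E a t x + χ x) w → (∀ x, |w x| ≤ B) ∧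
        ∫ x, Real.exp (q * (w x - (ps M p E a t x + χ x))) ∂M.mu H ≤ K

/-- The tail. -/
def St_TAIL : Prop := ∀ (n : ℕ) (M : Mf n) [M.Cpt] (H α : M.Fam (Mat n)) (p V C B T : ℝ)
  (E a χ w : M.X → ℝ), 0 < p → M.Met H → M.Sm E → M.Sm a → (∀ x, χ x ≤ C) → (∀ x, -B ≤ E x) →
  Sol M H α V (fun x => ps M p E a T x + χ x) w → (∀ x, (p - 1) * T - 1 ≤ w x - (p + 1) * E x) →
  (M.mu H).real {x | T ≤ E x - a x} ≤ Real.exp (C + B + 1 + p) * Real.exp (-((p - 1) * T))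

/-! ### Convexity -/

/-- The Ricci form of a solution. -/
def St_RIC : Prop := ∀ (n : ℕ) (M : Mf n) (H ϑ : M.Fam (Mat n)) (C₀ p C q η V t : ℝ)
  (E a χ l w : M.X → ℝ), 0 < p → Dat M H ϑ C₀ E a → Bd M H ϑ C q η χ l →
  Sol M H ((p + 1) • ϑ) V (fun x => ps M p E a t x + χ x) w →
  M.Le (fm M (fun x => p * sg M E a t x * (1 - sg M E a t x))
      (M.ds (fun x => E x - a x) fun x => E x - a x) - ((p + 1) • ϑ + M.hs w) - fm M l H)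
    (M.ric ((p + 1) • ϑ + M.hs w))

/-- The inequality of Bochner for the first variation. -/
def St_BOZ : Prop := ∀ (n : ℕ) (M : Mf n) (G H : M.Fam (Mat n)) (p t : ℝ) (E a l u : M.X → ℝ),
  0 < p → M.Kae G → M.Met H → M.Sm E → M.Sm a → M.Sm l → M.Sm u → (∀ x, 0 ≤ l x) →
  M.Le (fm M (fun x => p * sg M E a t x * (1 - sg M E a t x))
    (M.ds (fun x => E x - a x) fun x => E x - a x) - G - fm M l H) (M.ric G) →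
  (∀ x, u x - M.lap G u x = p * sg M E a t x) → ∀ x, 0 ≤ M.ip G (M.hs u) (M.hs u) x ∧
    -(l x * M.tr G H x * M.gr G u u x) ≤ M.lap G (M.gr G u u) x - M.ip G (M.hs u) (M.hs u) x -
      M.gr G u u x + p * sg M E a t x * (1 - sg M E a t x)

/-- The estimate of Chern and Lu. -/
def St_CLU : Prop := ∀ (n : ℕ) (M : Mf n) [M.Cpt] (H α : M.Fam (Mat n)) (φ : M.X → ℝ) (c b : ℝ),
  0 < n → M.Kae H → M.Clo α → M.Sm φ → M.Kae (α + M.hs φ) → ∃ S : ℝ, 0 ≤ S ∧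
    ∀ w y P l : M.X → ℝ, M.Sm w → M.Kae (α + M.hs w) → (∀ x, |w x| ≤ b) → M.Sm y →
      (∀ x, 0 ≤ P x) → (∀ x, l x ≤ c) →
      M.Le (fm M P (M.ds y y) - (α + M.hs w) - fm M l H) (M.ric (α + M.hs w)) →
      ∀ x, 0 ≤ M.tr (α + M.hs w) H x ∧ M.tr (α + M.hs w) H x ≤ S

/-- The bound for the gradient of the first variation. -/
def St_GRD : Prop := ∀ c p : ℝ, 0 ≤ c → ∃ Z : ℝ, 0 ≤ Z ∧ ∀ (n : ℕ) (M : Mf n) [M.Cpt]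
  (G : M.Fam (Mat n)) (u : M.X → ℝ), M.Met G → M.Sm u → (∀ x, |u x - M.lap G u x| ≤ p) →
  (∀ x, -(c * M.gr G u u x) - c ≤ M.lap G (M.gr G u u) x) → ∀ x, M.gr G u u x ≤ Z

/-- The barrier. -/
def St_BAR : Prop := ∀ (n : ℕ) (M : Mf n) [M.Cpt] (H α : M.Fam (Mat n)) (φ : M.X → ℝ)
  (C₀ b q K B C : ℝ), 0 < n → M.Kae H → M.Clo α → M.Le α (C₀ • H) → Env M α φ b → 1 < q →
  ∃ A : ℝ, 0 < A ∧ ∀ κ c : ℝ, 0 < κ → 0 ≤ c → ∃ η : ℝ, 0 < η ∧ ∀ (V : ℝ) (F w l : M.X → ℝ),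
    Sol M H α V F w → (∀ x, |w x| ≤ B) → ∫ x, Real.exp (q * (w x - F x)) ∂M.mu H ≤ K → M.Sm l →
    (∀ x, 0 ≤ l x ∧ l x ≤ C) → ∫ x, l x ∂M.mu H ≤ η → ∃ β, M.Sm β ∧ (∀ x, β x ≤ κ * A) ∧
      ∀ x, c * l x ≤ β x - M.lap (α + M.hs w) β x

/-- Subsolutions by finite differences. -/
def St_SUB : Prop := ∀ (n : ℕ) (M : Mf n) [M.Cpt] (H α : M.Fam (Mat n)) (p V : ℝ)
  (E a χ : M.X → ℝ) (w : ℝ → M.X → ℝ), 0 < p → M.Met H → M.Clo α → M.Sm E → M.Sm a →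
  (∀ t, Sol M H α V (fun x => ps M p E a t x + χ x) (w t)) →
  (∀ s t x, |w s x - w t x| ≤ p * |s - t|) ∧ ∀ (t : ℝ) (u ζ : M.X → ℝ), M.Sm u → M.Sm ζ →
    (∀ x, u x - M.lap (α + M.hs (w t)) u x = p * sg M E a t x) →
    (∀ x, 0 ≤ M.lap (α + M.hs (w t)) ζ x - M.ip (α + M.hs (w t)) (M.hs u) (M.hs u) x - ζ x +
      p * sg M E a t x * (1 - sg M E a t x)) →
    ∃ c r : ℝ, 0 < r ∧ ∀ h : ℝ, |h| ≤ r → ∀ x,
      w t x + h * u x + h ^ 2 / 2 * ζ x - c * |h| ^ 3 ≤ w (t + h) x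

/-- Convexity in the parameter, up to a small error. -/
def St_CVX : Prop := ∀ (n : ℕ) (M : Mf n) [M.Cpt] (H ϑ : M.Fam (Mat n)) (C₀ p C q T κ : ℝ)
  (E a : M.X → ℝ), 0 < p → 1 < q → 0 < κ → Dat M H ϑ C₀ E a → ∃ η : ℝ, 0 < η ∧
    ∀ (V : ℝ) (χ l : M.X → ℝ) (w : ℝ → M.X → ℝ), Bd M H ϑ C q η χ l →
      (∀ t, Sol M H ((p + 1) • ϑ) V (fun x => ps M p E a t x + χ x) (w t)) → ∀ x,
      Continuous (fun t => w t x) ∧ ∀ s ∈ Icc 0 T, ∃ c r : ℝ, 0 < r ∧ ∀ h ∈ Ioc 0 r,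
        -(κ * h ^ 2) - c * h ^ 3 ≤ w (s + h) x + w (s - h) x - 2 * w s x

/-- The theorem. -/
def St_ZK : Prop := ∀ (n : ℕ) (M : Mf n) [M.Cpt] (H θ : M.Fam (Mat n)), 0 < n → M.Kae H →
  M.Clo θ → Nef M H θ → Klt M H θ → ∃ a : ℝ → M.X → ℝ,
    (∀ e ∈ Ioc (0 : ℝ) 1, Env M (θ + e • H) (a e) e) ∧
    (∀ e ∈ Ioc (0 : ℝ) 1, ∀ e' ∈ Ioc 0 e, ∀ x, a e' x ≤ a e x + e) ∧
    ∀ m : ℝ, 0 < m → ∃ e₀ ∈ Ioc (0 : ℝ) 1, ∃ C : ℝ, ∀ e ∈ Ioc 0 e₀,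
      ∫ x, Real.exp (-(m * a e x)) ∂M.mu H ≤ C

end Pool.Agent.Lib.ZK
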