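import Pool.Agent.Lib.ZK.Blue

/-! The row MES of the project zk. -/

open Set MeasureTheory

noncomputable section

namespace Pool.Agent.Lib.ZK

namespace MES

/-- The pointwise bound. -/
theorem pt {p q r t y c : ℝ} (hp : 0 < p) (hr : 1 ≤ r) (hq : r < q) :
    Real.exp (r * (p * min y t - c)) ≤ Real.exp (r * p) * (1 + Real.exp (-(q * c))) +
      Real.exp (-(q * c)) +
      if 1 < y then Real.exp (r * p * t + r * (r * p * t / (q - r))) else 0 := by
  have e1 := Real.exp_pos (r * p)
  have e2 := Real.exp_pos (-(q * c))
  have r0 : 0 < r := by linarith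
  have d0 : 0 < q - r := by linarith
  by_cases hy : 1 < y
  · rw [if_pos hy]
    have e3 := Real.exp_pos (r * p * t + r * (r * p * t / (q - r)))
    have e4 : 0 < Real.exp (r * p) * (1 + Real.exp (-(q * c))) := by positivity
    have m : r * (p * min y t) ≤ r * (p * t) :=
      mul_le_mul_of_nonneg_left (mul_le_mul_of_nonneg_left (min_le_right _ _) hp.le) r0.le
    rcases le_total (-c) (r * p * t / (q - r)) with h | h
    · have : Real.exp (r * (p * min y t - c)) ≤
          Real.exp (r * p * t + r * (r * p * t / (q - r))) := by
        refine Real.exp_le_exp.2 ?_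
        have := mul_le_mul_of_nonneg_left h r0.le
        linarith
      linarith
    · have : Real.exp (r * (p * min y t - c)) ≤ Real.exp (-(q * c)) := by
        refine Real.exp_le_exp.2 ?_
        rw [div_le_iff₀ d0] at h
        linarith
      linarith
  · rw [if_neg hy]
    have m : r * (p * min y t) ≤ r * (p * 1) :=
      mul_le_mul_of_nonneg_left
        (mul_le_mul_of_nonneg_left ((min_le_left _ _).trans (not_lt.1 hy)) hp.le) r0.le
    have a : Real.exp (-(r * c)) ≤ 1 + Real.exp (-(q * c)) := by
      rcases le_total 0 c with h | h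
      · have : Real.exp (-(r * c)) ≤ 1 := Real.exp_le_one_iff.2 (by nlinarith)
        linarith
      · have : Real.exp (-(r * c)) ≤ Real.exp (-(q * c)) := Real.exp_le_exp.2 (by nlinarith)
        linarith
    have b : Real.exp (r * (p * min y t - c)) ≤ Real.exp (r * p) * Real.exp (-(r * c)) := by
      rw [← Real.exp_add]
      exact Real.exp_le_exp.2 (by linarith)
    have := mul_le_mul_of_nonneg_left a e1.le
    linarith

end MES

theorem st_MES : St_MES := by
  intro X _ μ _ p q r C hp hr hq
  have m0 : 0 ≤ μ.real univ := measureReal_nonneg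
  have c0 := abs_nonneg C
  have c1 := le_abs_self C
  have e1 := Real.exp_pos (r * p)
  refine ⟨Real.exp (r * p) * (μ.real univ + |C|) + |C| + 1, by positivity, fun t => ?_⟩
  set L := Real.exp (r * p * t + r * (r * p * t / (q - r))) with hL
  have L0 : 0 < L := Real.exp_pos _
  refine ⟨L⁻¹, inv_pos.2 L0, fun y χ B my mχ hB hC hη => ?_⟩
  have mS : MeasurableSet {x | 1 < y x} := measurableSet_lt measurable_const my
  have ig : Integrable (fun x => Real.exp (-(q * χ x))) μ := by
    refine Integrable.of_bound (by fun_prop) (Real.exp (|q| * B)) (.of_forall fun x => ?_)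
    rw [Real.norm_of_nonneg (Real.exp_pos _).le]
    refine Real.exp_le_exp.2 ((neg_le_abs _).trans ?_)
    rw [abs_mul]
    exact mul_le_mul_of_nonneg_left (hB x) (abs_nonneg _)
  have i1 : Integrable (fun x => 1 + Real.exp (-(q * χ x))) μ := (integrable_const 1).add ig
  have i2 : Integrable (fun x => Real.exp (r * p) * (1 + Real.exp (-(q * χ x)))) μ :=
    i1.const_mul _
  have i3 : Integrable (fun x => Real.exp (r * p) * (1 + Real.exp (-(q * χ x))) +
      Real.exp (-(q * χ x))) μ := i2.add ig
  have i4 : Integrable ({x | 1 < y x}.indicator fun _ => L) μ := (integrable_const L).indicator mS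
  have h1 : ∫ x, Real.exp (r * (p * min (y x) t - χ x)) ∂μ ≤
      ∫ x, Real.exp (r * p) * (1 + Real.exp (-(q * χ x))) + Real.exp (-(q * χ x)) +
        {x | 1 < y x}.indicator (fun _ => L) x ∂μ := by
    refine integral_mono_of_nonneg (.of_forall fun x => (Real.exp_pos _).le) (i3.add i4)
      (.of_forall fun x => ?_)
    have := MES.pt (t := t) (y := y x) (c := χ x) hp hr hq
    by_cases h : 1 < y x
    · rw [if_pos h] at this
      exact this.trans_eq (by simp only [indicator_of_mem (show x ∈ {x | 1 < y x} from h), hL])
    · rw [if_neg h] at this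
      exact this.trans_eq (by simp only [indicator_of_notMem (show x ∉ {x | 1 < y x} from h)])
  rw [integral_add i3 i4, integral_add i2 ig, integral_const_mul, integral_add (integrable_const 1) ig,
    integral_const, integral_indicator_const _ mS, smul_eq_mul, smul_eq_mul, mul_one] at h1
  have h2 : μ.real {x | 1 < y x} * L ≤ 1 := by
    have := mul_le_mul_of_nonneg_right hη L0.le
    rwa [inv_mul_cancel₀ L0.ne'] at this
  have h3 := mul_le_mul_of_nonneg_left (add_le_add_right (hC.trans c1) (μ.real univ)) e1.le
  linarith

end Pool.Agent.Lib.ZK
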