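import Pool.Agent.Lib.ZK.Blue

/-! Row UP of the project zk: upper bounds for the solution. -/

open scoped Classical Topology ContDiff ComplexOrder Matrix
open Set MeasureTheory Filter

noncomputable section

namespace Pool.Agent.Lib.ZK

open Pool.Agent.Lib.HS32 Pool.Agent.Lib.HS32.Mf

namespace UP

variable {n : ℕ} {M : Mf n}

theorem hs_sub_const {w : M.X → ℝ} (hw : M.Sm w) (m : ℝ) :
    M.All fun e z => M.hs (fun x => w x - m) e z = M.hs w e z := fun e he z hz => by
  obtain ⟨h0, -, h1, -⟩ := (mLAP n M w (fun _ => m) hw (sm_const m)).1 m e he z hz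
  rw [h1, h0, sub_zero]

theorem met_sub_const {α : M.Fam (Mat n)} {w : M.X → ℝ} (hw : M.Sm w) (m : ℝ)
    (h : M.Met (α + M.hs w)) : M.Met (α + M.hs fun x => w x - m) :=
  h.congr fun e he z hz => by
    have := hs_sub_const hw m e he z hz
    beta_reduce at this ⊢
    rw [Pi.add_apply, Pi.add_apply, Pi.add_apply, Pi.add_apply, this]

theorem exp_tan (g c : ℝ) : Real.exp c * (1 + (g - c)) ≤ Real.exp g := by
  have h := Real.add_one_le_exp (g - c)
  calc Real.exp c * (1 + (g - c)) ≤ Real.exp c * Real.exp (g - c) :=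
        mul_le_mul_of_nonneg_left (by linarith) (Real.exp_pos c).le
    _ = Real.exp g := by rw [← Real.exp_add, add_sub_cancel]

end UP

theorem st_UP (hKIT : St_KIT) (hPSI : St_PSI) : St_UP := by
  intro n M _ H C₀ p C hH hp
  obtain ⟨D, -, hD, -⟩ := mPSH n M H ((p + 1) * C₀) hH.toMet
  obtain ⟨-, hfin, -, hv, hint, -⟩ := mMU n M H hH.toMet
  set v := (M.mu H).real univ with hvdef
  refine ⟨max 0 (p + C + D / v - Real.log v), le_max_left _ _, ?_⟩
  intro ϑ V t E a χ w hd hχ ht hs
  obtain ⟨-, -, -, -, hle, henv⟩ := hKIT n M H ϑ hH hd.clo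
  obtain ⟨-, -, -, -, -, hps, -⟩ := hPSI n M p t E a hp.le hd.env.sm hd.sa
  have hp1 : 0 < p + 1 := by linarith
  refine ⟨?_, fun m hm x => ?_⟩
  · obtain ⟨x₀, hx₀⟩ := hs.sm.exists_max
    have hu : M.Sm fun x => w x - w x₀ := hs.sm.sub (sm_const _)
    have hmet := UP.met_sub_const hs.sm (w x₀) hs.kae.toMet
    have h1 := hD _ hu (hmet.nonneg.trans ((hle (p + 1) C₀ hp1.le hd.le).add (Le.refl _)))
      (fun x => sub_nonpos.2 (hx₀ x)) ⟨x₀, sub_self _⟩
    set c := w x₀ - p * t - p - C - D / v with hc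
    have iu := hint ℝ _ hu.continuous
    have h2 : ∫ x, Real.exp c * (1 + D / v + (w x - w x₀)) ∂M.mu H ≤
        ∫ x, Real.exp (w x - (ps M p E a t x + χ x)) ∂M.mu H := by
      refine integral_mono (((integrable_const _).add iu).const_mul _)
        (hint ℝ _ (hs.sm.sub hs.sF).exp.continuous) fun x => ?_
      refine le_trans (mul_le_mul_of_nonneg_left ?_ (Real.exp_pos c).le) (UP.exp_tan _ c)
      have h3 := (hps x).2.2
      have h4 : max (E x) (a x + t) ≤ t :=
        max_le ((hd.env.np x).trans ht) (by linarith [hd.na x])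
      have h5 := mul_le_mul_of_nonneg_left h4 hp.le
      have h6 := hχ x
      rw [hc]
      linarith
    rw [hs.one, integral_const_mul, integral_add (integrable_const _) iu, integral_const,
      smul_eq_mul, ← hvdef] at h2
    have h7 : v * (1 + D / v) = v + D := by field_simp
    have h8 : Real.exp c * v ≤ 1 :=
      le_trans (mul_le_mul_of_nonneg_left (by linarith) (Real.exp_pos c).le) h2
    have h9 : c + Real.log v ≤ 0 := by
      rw [← Real.exp_le_one_iff, Real.exp_add, Real.exp_log hv]
      exact h8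
    intro x
    have h10 := le_max_right 0 (p + C + D / v - Real.log v)
    have h11 := hx₀ x
    linarith
  · have h1 := (henv (p + 1) 1 E hp1 hd.env).mx _ (hs.sm.sub (sm_const m))
      (UP.met_sub_const hs.sm m hs.kae.toMet) (fun y => sub_nonpos.2 (hm y)) x
    have h2 := hd.env.np x
    obtain ⟨h3, h4, -⟩ := hps x
    beta_reduce at h1
    refine ⟨by linarith, ?_⟩
    rcases le_total (E x - a x) t with h | h
    · rw [min_eq_left h]
      nlinarith
    · rw [min_eq_right h]
      nlinarith

end Pool.Agent.Lib.ZK
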