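import Pool.Agent.Lib.ZK49.Tay
import Pool.Agent.Lib.HS76.Pt
import Pool.Agent.Lib.ZK26.Boch

/-! Convexity in the parameter of the solutions of a family of Monge-Ampère equations. -/

open scoped Classical Topology ContDiff ComplexOrder Matrix
open Set Filter Complex

noncomputable section

namespace Pool.Agent.Lib.ZK.NK

open Pool.Agent.Lib.HS32 Real

variable {n : ℕ} {M : Mf n}

theorem sig_eq (r : ℝ) : sigmoid r = Real.exp r / (1 + Real.exp r) := by
  rw [sigmoid_def, Real.exp_neg]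
  have := Real.exp_pos r
  field_simp
  ring

theorem sp_lip (r s : ℝ) : Real.log (1 + Real.exp r) - Real.log (1 + Real.exp s) ≤ |r - s| := by
  rw [sub_le_iff_le_add, ← Real.log_exp |r - s|,
    ← Real.log_mul (Real.exp_pos _).ne' (by positivity)]
  refine Real.log_le_log (by positivity) ?_
  rw [mul_add, mul_one, ← Real.exp_add]
  exact add_le_add (Real.one_le_exp (abs_nonneg _))
    (Real.exp_le_exp.2 (by linarith [le_abs_self (r - s)]))

theorem sp_der (t r : ℝ) :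
    HasDerivAt (fun r => Real.log (1 + Real.exp (t - r))) (-sigmoid (t - r)) r := by
  have := (((hasDerivAt_id r).const_sub t).exp.const_add 1).log
    (show (1 : ℝ) + Real.exp (t - r) ≠ 0 by positivity)
  refine this.congr_deriv ?_
  rw [sig_eq, id]; ring

theorem sig_der (t r : ℝ) : HasDerivAt (fun r => sigmoid (t - r))
    (-(sigmoid (t - r) * (1 - sigmoid (t - r)))) r :=
  ((hasDerivAt_sigmoid (t - r)).comp r ((hasDerivAt_id r).const_sub t)).congr_deriv (by ring)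

theorem sp_sm (t r : ℝ) : ContDiffAt ℝ ∞ (fun r => Real.log (1 + Real.exp (t - r))) r :=
  ContDiffAt.log (by fun_prop) (by positivity)

theorem sig_sm (t r : ℝ) : ContDiffAt ℝ ∞ (fun r => sigmoid (t - r)) r :=
  ((contDiff_sigmoid.of_le le_top).comp (by fun_prop : ContDiff ℝ ∞ fun r : ℝ => t - r)).contDiffAt

theorem rk_one {N : Mat n} (hN : N.IsHermitian) (a b : Fin n → ℂ) :
    (N * Matrix.vecMulVec (star a) b).trace.re ^ 2 ≤
      (N * Matrix.vecMulVec (star a) a * N * Matrix.vecMulVec (star b) b).trace.re := by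
  have e : a ⬝ᵥ N *ᵥ star b = star (b ⬝ᵥ N *ᵥ star a) := by
    rw [← Matrix.star_dotProduct_star, Matrix.star_mulVec, hN.eq, star_star,
      Matrix.dotProduct_mulVec]
  have e' : (N * Matrix.vecMulVec (star a) a * N * Matrix.vecMulVec (star b) b).trace =
      (b ⬝ᵥ N *ᵥ star a) * (a ⬝ᵥ N *ᵥ star b) := by
    rw [Matrix.mul_assoc, Matrix.mul_vecMulVec, Matrix.mul_vecMulVec,
      Matrix.vecMulVec_mul_vecMulVec, Matrix.trace_vecMulVec, dotProduct_smul, smul_eq_mul,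
      dotProduct_comm _ b, mul_comm]
  rw [e', e, Matrix.mul_vecMulVec, Matrix.trace_vecMulVec, dotProduct_comm _ b]
  generalize b ⬝ᵥ N *ᵥ star a = c
  rw [star_def, mul_conj, ofReal_re, normSq_apply]
  nlinarith [mul_self_nonneg c.im]

variable {G : M.Fam (Mat n)} {u y : M.X → ℝ}

theorem ev_ds (hy : M.Sm y) (u : M.X → ℝ) (x : M.X) : M.ev (M.ds y u) x =
    Matrix.vecMulVec (star fun j => dz j (M.lc y (M.ch x)) (M.ch x x))
      fun j => dz j (M.lc u (M.ch x)) (M.ch x x) := by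
  ext i j
  exact congrArg (· * _) (star_dz_ofReal (cd_diff (hy.lc _ (Mf.ch_mem x) _ (Mf.ch_tgt x)))).symm

theorem gr_sq_le (hG : M.Met G) (hy : M.Sm y) (hu : M.Sm u) (x : M.X) :
    M.gr G y u x ^ 2 ≤ M.ip G (M.ds y y) (M.ds u u) x := by
  rw [Mf.gr, Mf.tr, Mf.ip, ev_ds hy, ev_ds hy, ev_ds hu]
  exact rk_one (hG.ev_pos x).1.inv _ _

theorem ip_mono {S T D : M.Fam (Mat n)} (hG : M.Met G) (hD : M.Le 0 D) (h : M.Le S T) (x : M.X) :
    M.ip G D S x ≤ M.ip G D T x :=
  HS76.tr_mul_mono (HS76.conj_inv_psd (hG.ev_pos x) (by simpa [Mf.ev] using Mf.AllOn.ch hD x))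
    (Mf.AllOn.ch h x)

theorem ip_fsmul {S T : M.Fam (Mat n)} (v : M.X → ℝ) (x : M.X) :
    M.ip G S (fun e z => v (e.symm z) • T e z) x = v x * M.ip G S T x := by
  simp only [Mf.ip, Mf.ev, Mf.ch_symm, Matrix.mul_smul, Matrix.trace_smul, smul_re, smul_eq_mul]

theorem gr_sub {f : M.X → ℝ} (hu : M.Sm u) (hf : M.Sm f) (x : M.X) :
    M.gr G (fun x => u x - f x) y x = M.gr G u y x - M.gr G f y x := by
  rw [Mf.gr, Mf.gr, Mf.gr, ← Mf.tr_sub, Mf.tr, Mf.tr]
  congr 3
  ext i j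
  have h := dzb_sub (j := i) (cd_diff (hu.lc _ (Mf.ch_mem x) _ (Mf.ch_tgt x)))
    (cd_diff (hf.lc _ (Mf.ch_mem x) _ (Mf.ch_tgt x)))
  have e : M.lc (fun x => u x - f x) (M.ch x) = fun w => M.lc u (M.ch x) w - M.lc f (M.ch x) w :=
    funext fun w => ofReal_sub _ _
  simp only [Mf.ev, Mf.ds, Pi.sub_apply, Matrix.sub_apply, dd_apply, e, h, sub_mul]

end Pool.Agent.Lib.ZK.NK
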