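import Pool.Agent.Lib.ZK.Blue
import Pool.Agent.Lib.ZK.N_Kit

/-! Calculus of the twisting weight. -/

open scoped Classical Topology ContDiff ComplexOrder Matrix
open Set Filter

noncomputable section

namespace Pool.Agent.Lib.ZK

open Pool.Agent.Lib.HS32 Pool.Agent.Lib.ZK.NK Real

namespace NPSI

theorem mv {f g : ℝ → ℝ} {h C : ℝ} (hf : ∀ u, HasDerivAt f (g u) u)
    (hg : ∀ u, |u| ≤ |h| → |g u| ≤ C) : |f h - f 0| ≤ C * |h| := by
  have := (convex_closedBall (0 : ℝ) |h|).norm_image_sub_le_of_norm_hasDerivWithin_le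
    (f := f) (f' := g) (C := C) (fun u _ => (hf u).hasDerivWithinAt)
    (fun u hu => hg u (by simpa using hu)) (x := 0) (y := h) (by simp) (by simp)
  simpa using this

theorem sh (r u : ℝ) :
    HasDerivAt (fun u => sigmoid (r + u)) (sigmoid (r + u) * (1 - sigmoid (r + u))) u :=
  (hasDerivAt_sigmoid (r + u)).comp_const_add r u

theorem l1 (r h : ℝ) :
    |sigmoid (r + h) * (1 - sigmoid (r + h)) - sigmoid r * (1 - sigmoid r)| ≤ |h| := by
  have a := mv (h := h) (C := 1) (sh r) fun u _ => by
    have s0 := sigmoid_nonneg (r + u)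
    have s1 := sigmoid_le_one (r + u)
    rw [abs_le]; constructor <;> nlinarith
  rw [add_zero, one_mul] at a
  have b : |1 - sigmoid (r + h) - sigmoid r| ≤ 1 := by
    rw [abs_le]
    constructor <;> linarith [sigmoid_nonneg (r + h), sigmoid_le_one (r + h), sigmoid_nonneg r,
      sigmoid_le_one r]
  calc _ = |sigmoid (r + h) - sigmoid r| * |1 - sigmoid (r + h) - sigmoid r| := by
        rw [← abs_mul]; exact congrArg _ (by ring)
    _ ≤ |h| * 1 := mul_le_mul a b (abs_nonneg _) (abs_nonneg _)
    _ = _ := mul_one _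

theorem l2 (r h : ℝ) :
    |sigmoid (r + h) - sigmoid r - h * (sigmoid r * (1 - sigmoid r))| ≤ |h| * |h| := by
  have a := mv (h := h) (C := |h|)
    (f := fun u => sigmoid (r + u) - u * (sigmoid r * (1 - sigmoid r)))
    (fun u => (sh r u).sub (((hasDerivAt_id u).mul_const _).congr_deriv (one_mul _)))
    fun u hu => (l1 r u).trans hu
  refine (le_of_eq (congrArg _ ?_)).trans a
  simp only [add_zero]
  ring

theorem l3 (r h : ℝ) : Real.log (1 + Real.exp r) + h * sigmoid r +
    h ^ 2 / 2 * (sigmoid r * (1 - sigmoid r)) - |h| ^ 3 ≤ Real.log (1 + Real.exp (r + h)) := by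
  have d (u : ℝ) : HasDerivAt (fun u => Real.log (1 + Real.exp (r + u))) (sigmoid (r + u)) u := by
    have := (((hasDerivAt_id u).const_add r).exp.const_add 1).log
      (show (1 : ℝ) + Real.exp (r + u) ≠ 0 by positivity)
    refine this.congr_deriv ?_
    rw [sig_eq, id]; ring
  have a := mv (h := h) (C := |h| * |h|)
    (f := fun u => Real.log (1 + Real.exp (r + u)) - u * sigmoid r -
      u ^ 2 / 2 * (sigmoid r * (1 - sigmoid r)))
    (g := fun u => sigmoid (r + u) - sigmoid r - u * (sigmoid r * (1 - sigmoid r)))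
    (fun u => ((d u).sub (((hasDerivAt_id u).mul_const _).congr_deriv (one_mul _))).sub
      ((((hasDerivAt_pow 2 u).div_const 2).mul_const _).congr_deriv (by norm_num)))
    fun u hu => (l2 r u).trans (mul_self_le_mul_self (abs_nonneg _) hu)
  have b := (abs_le.1 a).1
  simp only [add_zero] at b
  nlinarith

variable {n : ℕ} (M : Mf n) (p t : ℝ) (E a : M.X → ℝ)

theorem ps_eq : ps M p E a t =
    fun x => p * E x + p * Real.log (1 + Real.exp (t - (E x - a x))) := funext fun x => by
  have e : Real.exp (E x) + Real.exp (a x + t) =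
      Real.exp (E x) * (1 + Real.exp (t - (E x - a x))) := by
    rw [mul_add, mul_one, ← Real.exp_add]; congr 2; ring
  rw [ps, e, Real.log_mul (Real.exp_pos _).ne' (by positivity), Real.log_exp, mul_add]

theorem sg_eq : sg M E a t = fun x => sigmoid (t - (E x - a x)) := funext fun x => by
  have e : Real.exp (a x + t) = Real.exp (E x) * Real.exp (t - (E x - a x)) := by
    rw [← Real.exp_add]; congr 1; ring
  have := Real.exp_pos (E x)
  have := Real.exp_pos (t - (E x - a x))
  rw [sg, sig_eq, e]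
  field_simp

end NPSI

open NPSI in
theorem n_PSI : St_PSI := by
  intro n M p t E a hp hE ha
  have hy : M.Sm fun x => E x - a x := hE.sub ha
  have a1 := (mLAP n M _ _ hy hy).2.1 _ fun x => sp_sm t (E x - a x)
  have a2 := (mLAP n M _ _ hy hy).2.1 _ fun x => sig_sm t (E x - a x)
  refine ⟨?_, ?_, fun x => ?_, fun e he z hz => ?_, fun G u hG hu x => ?_, fun x => ⟨?_, ?_, ?_⟩,
    fun s x => ?_, fun h x => ?_⟩
  · rw [ps_eq]; exact (hE.const_mul p).add (a1.1.const_mul p)
  · rw [sg_eq]; exact a2.1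
  · rw [sg_eq]; exact ⟨sigmoid_pos _, sigmoid_lt_one _⟩
  · have b := (a1.2 e he z hz).1
    rw [show deriv _ = _ from funext fun r => (sp_der t r).deriv,
      ((sig_der t _).fun_neg).deriv] at b
    rw [ps_eq, sg_eq]
    beta_reduce at b ⊢
    rw [((mLAP n M _ _ (hE.const_mul p) (a1.1.const_mul p)).1 0 e he z hz).2.1,
      ((mLAP n M _ _ hE hE).1 p e he z hz).2.2.2.1,
      ((mLAP n M _ _ a1.1 hE).1 p e he z hz).2.2.2.1, b,
      ((mLAP n M _ _ hE ha).1 p e he z hz).2.2.1]
    module
  · have b := (((mLAP n M _ _ hy hu).2.2 G hG).2.2.2.1 _ (fun x => sig_sm t (E x - a x)) x).2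
    rw [(sig_der t _).deriv] at b
    rw [sg_eq]; exact b
  · refine mul_le_mul_of_nonneg_left ?_ hp
    rw [Real.le_log_iff_exp_le (by positivity)]
    linarith [Real.exp_pos (a x + t)]
  · refine mul_le_mul_of_nonneg_left ?_ hp
    rw [Real.le_log_iff_exp_le (by positivity)]
    linarith [Real.exp_pos (E x)]
  · rw [← mul_add_one]
    refine mul_le_mul_of_nonneg_left ?_ hp
    rw [Real.log_le_iff_le_exp (by positivity), Real.exp_add (max _ _)]
    have b1 := Real.exp_le_exp.2 (le_max_left (E x) (a x + t))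
    have b2 := Real.exp_le_exp.2 (le_max_right (E x) (a x + t))
    have b3 := Real.add_one_le_exp 1
    nlinarith [Real.exp_pos (max (E x) (a x + t))]
  · have b1 := mul_le_mul_of_nonneg_left (sp_lip (s - (E x - a x)) (t - (E x - a x))) hp
    have b2 := mul_le_mul_of_nonneg_left (sp_lip (t - (E x - a x)) (s - (E x - a x))) hp
    rw [sub_sub_sub_cancel_right] at b1 b2
    rw [abs_sub_comm] at b2
    simp only [ps_eq]
    rw [abs_le]; constructor <;> linarith
  · have b := mul_le_mul_of_nonneg_left (l3 (t - (E x - a x)) h) hp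
    simp only [ps_eq, sg_eq]
    rw [show t + h - (E x - a x) = t - (E x - a x) + h by ring]
    linarith

end Pool.Agent.Lib.ZK
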