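import Pool.Agent.Lib.ZK.Blue
import Pool.Agent.Lib.ZK48.Uni
import Pool.Agent.Lib.HS21.All

/-! Project zk: the uniform estimate in the form of the blueprint. -/

open scoped Classical Topology ContDiff ComplexOrder Matrix
open Set MeasureTheory Filter

noncomputable section

namespace Pool.Agent.Lib.ZK

open Pool.Agent.Lib.HS32

theorem st_UNI : St_UNI := by
  intro n M _ H C₀ b q K hn hH hq
  obtain ⟨S, S0, hS⟩ := ZK48.uni (M := M) HS21.st_AUBIN hn hH.toMet C₀ |b| K hq
  refine ⟨S, S0, fun α V φ F w hα hle hE hw hK x y => ?_⟩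
  obtain ⟨x₀, hx₀⟩ := hw.sm.exists_max
  have sw : M.Sm fun x => w x - w x₀ := hw.sm.sub (Mf.sm_const _)
  have e : M.All fun e z => (α + M.hs fun x => w x - w x₀) e z = (α + M.hs w) e z := by
    intro e he z hz
    have h := (mLAP n M w (fun _ => w x₀) hw.sm (Mf.sm_const _)).1 (w x₀) e he z hz
    simp only [Pi.add_apply]
    rw [h.2.2.1, h.1, sub_zero]
  have hk : M.Kae (α + M.hs fun x => w x - w x₀) := hw.kae.congr e
  have hd : ∀ x, M.dq H (α + M.hs fun x => w x - w x₀) x = V * Real.exp (w x - F x) := fun x => by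
    rw [← hw.eq x]
    simp only [Mf.dq, Mf.ev_congr e]
  have hm : (M.mu (α + M.hs fun x => w x - w x₀)).real univ = V := by
    have h := ((mMU n M H hH.toMet).2.2.2.2.2.2 _ hk.toMet).2.1 fun _ => 1
    simp only [integral_const, smul_eq_mul, mul_one, hd] at h
    rw [h, integral_const_mul, hw.one, mul_one]
  have h := hS α φ (fun x => w x - w x₀) (fun x => Real.exp (w x - F x)) hE.sm sw hle hk
    hE.kae.toMet.nonneg
    (fun ψ h1 h2 h3 x => (hE.mx ψ h1 h2 h3 x).trans (by linarith [le_abs_self b]))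
    (fun x => (hE.np x).trans (abs_nonneg b)) (fun x => sub_nonpos.2 (hx₀ x)) ⟨x₀, sub_self _⟩
    (hw.sm.sub hw.sF).exp.continuous (fun x => by rw [hd, hm])
    (by simpa only [← Real.exp_mul, mul_comm q] using hK) x
  linarith [hx₀ y]

end Pool.Agent.Lib.ZK
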