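import Pool.Agent.Lib.ZK.Blue
import Pool.Agent.Lib.ZK48.Lin
import Pool.Agent.Lib.ZK49.Tay
import Pool.Agent.Lib.HS21.All

/-! Project zk, row ENV: almost maximal smooth potentials. -/

open scoped Classical Topology ContDiff ComplexOrder Matrix
open Set MeasureTheory Filter

noncomputable section

namespace Pool.Agent.Lib.ZK

open Pool.Agent.Lib.HS32 Pool.Agent.Lib.DM.K63

theorem st_ENV : St_ENV := by
  intro n M _ H α φ δ hn _ hα hφ hG hδ
  set G := α + M.hs φ with eG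
  obtain ⟨B, B0, hB⟩ := hφ.exists_bound
  obtain ⟨C, C0, hC, -⟩ := (mBD n M G hG.toMet).1 α hα.toForm
  set ε : ℝ := min 1 (δ / (4 * B)) with hε
  have ε0 : 0 < ε := by positivity
  have ε1 : ε ≤ 1 := min_le_left _ _
  have ε2 : ε * (4 * B) ≤ δ := (le_div_iff₀ (by positivity)).1 (min_le_right _ _)
  set R := |Real.log (C ^ n)| + |Real.log (ε ^ n)| + 1 with hR
  have R0 : 0 < R := by positivity
  set t := 2 * R / δ with ht
  have t0 : 0 < t := by positivity
  have tδ : t * δ = 2 * R := by rw [ht]; field_simp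
  obtain ⟨v, hv, hk, he⟩ := HS21.st_AUBIN n M G (fun x => t * φ x) t hn hG (hφ.const_mul t) t0
  have hu := hv.add hφ
  have L := fun f g hf hg c x => Mf.AllOn.ch ((mLAP n M f g hf hg).1 c) x
  have up : ∀ x, t * (v x + φ x) ≤ Real.log (C ^ n) := fun x => by
    obtain ⟨y, hy⟩ := hu.exists_max
    have m1 := (((mLAP n M _ _ hu hu).2.2 G hG.toMet).2.2.1 y 0).2.2.2.2.2.2.2.2.1
      (Eventually.of_forall hy) |>.2.2 _ (Mf.ch_mem y) (Mf.mem_ch y)
    have m2 := ZK49.dq_mono (T := C • G) hG.toMet (hk.toMet.ev_pos y) (by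
      refine (congrArg Matrix.PosSemidef ?_).mpr (m1.add (Mf.AllOn.ch hC y))
      rw [(L _ _ hv hφ 0 y).2.1]
      simp only [Mf.ev, eG, Pi.add_apply]
      abel)
    rw [Mf.dq_smul, hG.toMet.dq_self, mul_one, he, ← Real.le_log_iff_exp_le (pow_pos C0 n)] at m2
    linarith [mul_le_mul_of_nonneg_left (hy x) t0.le]
  set c := Real.log (C ^ n) / t with hc
  have tc : t * c = Real.log (C ^ n) := mul_div_cancel₀ _ t0.ne'
  refine ⟨fun x => v x + φ x + -c, hu.add (Mf.sm_const _), hk.congr fun e he z hz => ?_,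
    fun x => ?_, fun ψ hψ hm h0 x => ?_⟩
  · simp only [eG, Pi.add_apply]
    rw [hs_add_const hu _ e he z hz, ((mLAP n M v φ hv hφ).1 0 e he z hz).2.1]
    abel
  · exact le_of_mul_le_mul_left (by linarith [up x]) t0
  have h1 := hψ.const_mul (1 - ε)
  have h2 := hφ.const_mul ε
  have hf := hu.sub (h1.add h2)
  obtain ⟨y, hy⟩ := hf.exists_min
  have m1 := (((mLAP n M _ _ hf hf).2.2 G hG.toMet).2.2.1 y 0).2.2.2.2.2.2.2.2.2
    (Eventually.of_forall hy) |>.2.2 _ (Mf.ch_mem y) (Mf.mem_ch y)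
  have m2 := ZK49.dq_mono (T := G + M.hs v) hG.toMet ((hG.toMet.smul ε0).ev_pos y) (by
    refine (congrArg Matrix.PosSemidef ?_).mpr
      (m1.add (Mf.psd_rsmul (hm.ev_pos y).posSemidef (sub_nonneg.2 ε1)))
    rw [(L _ _ hu (h1.add h2) 0 y).2.2.1, (L _ _ hv hφ 0 y).2.1, (L _ _ h1 h2 0 y).2.1,
      (L _ _ hψ hψ (1 - ε) y).2.2.2.1, (L _ _ hφ hφ ε y).2.2.2.1]
    simp only [Mf.ev, eG, Pi.add_apply, Pi.smul_apply]
    module)
  rw [Mf.dq_smul, hG.toMet.dq_self, mul_one, he, ← Real.log_le_iff_le_exp (pow_pos ε0 n)] at m2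
  have b1 := abs_le.1 (hB x)
  have b2 := abs_le.1 (hB y)
  have k : v y + φ y - δ / 2 ≤ v x + φ x - ψ x := by
    have := hy x
    nlinarith [mul_nonneg (sub_nonneg.2 ε1) (neg_nonneg.2 (h0 y)),
      mul_nonneg ε0.le (neg_nonneg.2 (h0 x)), mul_le_mul_of_nonneg_left b1.1 ε0.le,
      mul_le_mul_of_nonneg_left b2.2 ε0.le]
  refine le_of_mul_le_mul_left ?_ t0
  nlinarith [mul_le_mul_of_nonneg_left k t0.le, le_abs_self (Real.log (C ^ n)),
    neg_abs_le (Real.log (ε ^ n))]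

end Pool.Agent.Lib.ZK
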