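import Pool.Agent.Lib.ZK.Blue
import Pool.Agent.Lib.ZK26.Low

/-! The bound of Chern and Lu along the family. -/

open scoped Topology ComplexOrder Matrix
open Set Filter Complex

noncomputable section

namespace Pool.Agent.Lib.ZK

open Pool.Agent.Lib.HS32 Pool.Agent.Lib.HS32.Mf Pool.Agent.Lib.HS76 Pool.Agent.Lib.HS21

theorem st_CLU : St_CLU := by
  intro n M _ H α φ c b hn hH _ hφ hS
  obtain ⟨C, hC0, hC, -⟩ := (mBD n M _ hS.toMet).1 H hH.toForm
  obtain ⟨B, hB0, hB⟩ := hφ.exists_bound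
  obtain ⟨K, hK0, hK⟩ := ZK26.low hH (inv_pos.2 hC0) (|c| + 2 * |b| + 2 * B)
  refine ⟨K * n, by positivity, fun w y P l hw hG hb hy hP hl hr x =>
    ⟨((HS.st_CLG mINV mLAP mHES n M _ H hG hH).2.1 hn x).le, ?_⟩⟩
  have h1 : M.Le (C⁻¹ • H) (α + M.hs φ) := by
    have := hC.smul (inv_pos.2 hC0).le
    rwa [smul_smul, inv_mul_cancel₀ hC0.ne', one_smul] at this
  have h2 : M.Le (-((α + M.hs w) + (|c| + 2 * |b| + 2 * B) • H))
      (fm M P (M.ds y y) - (α + M.hs w) - fm M l H) := fun e he z hz => by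
    have a1 := psd_rsmul (((mHES n M).2.2.1 y hy).2 e he z hz) (hP (e.symm z))
    have a2 := psd_rsmul (hH.pos e he z hz).posSemidef
      (show 0 ≤ |c| + 2 * |b| + 2 * B - l (e.symm z) by
        linarith [hl (e.symm z), le_abs_self c, abs_nonneg b])
    have a3 := a1.add a2
    rw [Pi.zero_apply, Pi.zero_apply, sub_zero, sub_smul] at a3
    have a4 : (fm M P (M.ds y y) - (α + M.hs w) - fm M l H) e z -
        (-((α + M.hs w) + (|c| + 2 * |b| + 2 * B) • H)) e z =
        P (e.symm z) • M.ds y y e z +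
          ((|c| + 2 * |b| + 2 * B) • H e z - l (e.symm z) • H e z) := by
      simp only [fm, Pi.sub_apply, Pi.neg_apply, Pi.add_apply, Pi.smul_apply]
      abel
    beta_reduce
    rw [a4]
    exact a3
  have h3 := hK _ (α + M.hs φ) (fun x => w x - φ x) hG (hw.sub hφ) h1
    (fun e he z hz => by
      beta_reduce
      rw [((mLAP n M w φ hw hφ).1 0 e he z hz).2.2.1]
      simp only [Pi.add_apply]
      abel)
    (fun x x' => by
      have b1 := abs_le.1 (hb x)
      have b2 := abs_le.1 (hb x')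
      have b3 := abs_le.1 (show |φ x| ≤ B from hB x)
      have b4 := abs_le.1 (show |φ x'| ≤ B from hB x')
      linarith [b1.2, b2.1, b3.1, b4.2, le_abs_self b, abs_nonneg c])
    (h2.trans hr)
  have h4 := hG.toMet.tr_mono h3 x
  rwa [tr_smul, hG.toMet.tr_self] at h4

end Pool.Agent.Lib.ZK
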