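import Pool.Agent.Lib.ZK.Blue
import Pool.Agent.Lib.ZK18.Real

/-! Extrapolation by convexity. -/

open scoped Topology
open Set Filter

namespace Pool.Agent.Lib.ZK

theorem st_EXT : St_EXT := by
  intro D κ T t A p hD hκ ht htT hA h h0 h1
  have key := Pool.Agent.Lib.ZK18.extrap (f := D) (t := t) (T := T) (κ := κ) hD.continuousOn
    (fun s hs => by
      obtain ⟨c, r, hr, hc⟩ := h s ⟨hs.1.le, hs.2.le⟩
      exact ⟨c, mem_of_superset (Ioc_mem_nhdsGT hr) hc⟩) ht.le htT
  have hT : 0 < T := ht.trans_le htT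
  have e1 : T * (p * t - A) ≤ T * D t := mul_le_mul_of_nonneg_left h1 hT.le
  have e2 : (T - t) * D 0 ≤ (T - t) * A := mul_le_mul_of_nonneg_left h0 (sub_nonneg.2 htT)
  have e3 : 0 ≤ t * A := mul_nonneg ht.le hA
  have e4 : 0 ≤ κ * (t * T * T) := by positivity
  have e5 : 0 ≤ κ * (t * t * T) := by positivity
  have e6 : t * (2 * A * T / t) = 2 * A * T := by field_simp
  refine le_of_mul_le_mul_left ?_ ht
  linarith

end Pool.Agent.Lib.ZK
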