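import Pool.Agent.Lib.ZK.Blue
import Pool.Agent.Lib.ZK48.Uni

/-! Project zk, row FAM: the almost maximal potentials are close in measure. -/

open scoped Classical Topology ContDiff ComplexOrder Matrix
open Set MeasureTheory Filter

noncomputable section

namespace Pool.Agent.Lib.ZK

open Pool.Agent.Lib.HS32 Pool.Agent.Lib.DM.K63

theorem st_FAM (hKIT : St_KIT) : St_FAM := by
  intro n M _ H θ a η hH hθ ha hη
  obtain ⟨-, ⟨C, hC⟩, hK, -⟩ := hKIT n M H θ hH hθ
  obtain ⟨P, hP⟩ := sup_le hH.toMet C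
  obtain ⟨-, fin, -, v0, -⟩ := mMU n M H hH.toMet
  set V := (M.mu H).real univ with hV
  set r := min 1 (η / (2 * V)) with hr
  have r0 : 0 < r := by positivity
  have r1 : r ≤ 1 := min_le_left _ _
  have r2 : r * (2 * V) ≤ η := (le_div_iff₀ (by positivity)).1 (min_le_right _ _)
  have sub : ∀ {s}, s ∈ Ioc 0 r → s ∈ Ioc (0 : ℝ) 1 := fun h => ⟨h.1, h.2.trans r1⟩
  have bd : BddBelow ((fun s => ∫ x, a s x ∂M.mu H) '' Ioc 0 r) := by
    refine ⟨-V - P, ?_⟩
    rintro _ ⟨s, hs, rfl⟩
    have h := ha s (sub hs)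
    obtain ⟨y, hy⟩ := h.sm.exists_max
    have k := h.mx (fun x => a s x + -a s y) (h.sm.add (Mf.sm_const _))
      (h.kae.toMet.congr fun e he z hz => by
        simp only [Pi.add_apply]; rw [hs_add_const h.sm _ e he z hz])
      (fun x => by linarith [hy x]) y
    have k2 := hP _ h.sm (ZK48.le_psh (hC s (sub hs).2) h.kae.toMet.nonneg) y
    have k3 := mul_le_mul_of_nonneg_right (show -1 ≤ a s y by linarith [(sub hs).2]) v0.le
    simp only
    linarith
  obtain ⟨_, ⟨e, he, rfl⟩, h1⟩ := exists_lt_of_csInf_lt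
    ((nonempty_Ioc.2 r0).image fun s => ∫ x, a s x ∂M.mu H) (lt_add_of_pos_right _ (half_pos hη))
  refine ⟨e, sub he, fun e' he' => ?_⟩
  have h2 : e' ∈ Ioc 0 r := ⟨he'.1, he'.2.trans he.2⟩
  have h3 := csInf_le bd (mem_image_of_mem _ h2)
  have p := ha e (sub he)
  have p' := ha e' (sub h2)
  have h4 := p.mx _ p'.sm (hK e e' _ he'.2 p'.sm p'.kae).1.toMet p'.np
  have i1 := int hH.toMet p.sm.continuous
  have i2 := int hH.toMet p'.sm.continuous
  have h5 := mul_meas_ge_le_integral_of_nonneg (μ := M.mu H) (f := fun x => a e x - a e' x + e)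
    (ae_of_all _ fun x => by simp only [Pi.zero_apply]; linarith [h4 x])
    ((i1.sub i2).add (integrable_const _)) 1
  rw [one_mul, integral_add (f := fun x => a e x - a e' x) (i1.sub i2) (integrable_const _),
    integral_sub i1 i2, integral_const, smul_eq_mul, ← hV] at h5
  refine (measureReal_mono fun x hx => ?_).trans (h5.trans ?_)
  · simp only [mem_setOf_eq] at hx ⊢
    linarith [he.1]
  · simp only at h1 h3
    nlinarith [mul_le_mul_of_nonneg_left he.2 v0.le]

end Pool.Agent.Lib.ZK
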