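import Pool.Agent.Lib.ZK.Blue

/-! Project zk: the bound for the gradient of the first variation. -/

open scoped Topology
open Set Filter

namespace Pool.Agent.Lib.ZK

open Pool.Agent.Lib.HS32

theorem st_GRD : St_GRD := by
  intro c p hc
  refine ⟨c + 3 * (c + 1) * p ^ 2, by positivity, fun n M _ G u hG hu hb hl x => ?_⟩
  obtain ⟨-, hz, l, -⟩ := (mLAP n M _ _ hu hu).2.2 _ hG
  obtain ⟨y₁, hy₁⟩ := hu.exists_max
  obtain ⟨y₂, hy₂⟩ := hu.exists_min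
  have a1 := ((l y₁ 0).2.2.2.2.2.2.2.2.1 (Eventually.of_forall hy₁)).1
  have a2 := ((l y₂ 0).2.2.2.2.2.2.2.2.2 (Eventually.of_forall hy₂)).1
  have hub : ∀ y, -p ≤ u y ∧ u y ≤ p := fun y =>
    ⟨by linarith [(abs_le.1 (hb y₂)).1, hy₂ y], by linarith [(abs_le.1 (hb y₁)).2, hy₁ y]⟩
  have h2 := hu.mul hu
  have h3 := h2.const_mul ((c + 1) / 2)
  have h4 := hz.add h3
  obtain ⟨y, hy⟩ := h4.exists_max
  have b1 := ((((mLAP n M _ _ h4 h4).2.2 _ hG).2.2.1 y 0).2.2.2.2.2.2.2.2.1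
    (Eventually.of_forall hy)).1
  rw [(((mLAP n M _ _ hz h3).2.2 _ hG).2.2.1 y 0).2.1,
    (((mLAP n M _ _ h2 h2).2.2 _ hG).2.2.1 y ((c + 1) / 2)).2.2.2.1, (l y 0).2.2.2.2.1] at b1
  have b2 := hl y
  have b3 := hy x
  obtain ⟨d1, d2⟩ := hub y
  obtain ⟨d3, d4⟩ := abs_le.1 (hb y)
  have e1 : u y * u y ≤ p ^ 2 := by nlinarith
  have e2 : -p ^ 2 ≤ u y * M.lap G u y := by
    nlinarith [mul_self_nonneg (u y), mul_nonneg (sub_nonneg.2 d1) (sub_nonneg.2 d4),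
      mul_nonneg (sub_nonneg.2 d2) (sub_nonneg.2 d3)]
  have e3 : 0 ≤ (c + 1) * (u x * u x) := mul_nonneg (by linarith) (mul_self_nonneg _)
  have e4 := mul_le_mul_of_nonneg_left e1 (by linarith : 0 ≤ c + 1)
  have e5 := mul_le_mul_of_nonneg_left e2 (by linarith : 0 ≤ c + 1)
  have e6 : 0 ≤ (c + 1) * p ^ 2 := by positivity
  linarith

end Pool.Agent.Lib.ZK
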