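import Pool.Agent.Lib.ZK.Blue

/-! Row LAY: from the tail to the exponential integral. -/

open Set MeasureTheory

noncomputable section

namespace Pool.Agent.Lib.ZK

theorem st_LAY : St_LAY := by
  intro X _ μ _ m A t hm
  refine ⟨Real.exp (m * t) * μ.real univ + |A| * Real.exp (m - t) * (1 - Real.exp (-1))⁻¹,
    fun y B hy hB hT => ?_⟩
  set N := ⌊B - t⌋₊ + 1 with hN
  have hS : ∀ k : ℕ, MeasurableSet {x | t + k ≤ y x} := fun k => measurableSet_le measurable_const hy
  have hI : ∀ k : ℕ, Integrable
      ({x | t + k ≤ y x}.indicator fun _ => Real.exp (m * (t + k + 1))) μ := fun k =>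
    (integrable_const _).indicator (hS k)
  have hpt : ∀ x, Real.exp (m * y x) ≤ Real.exp (m * t) + ∑ k ∈ Finset.range N,
      {x | t + k ≤ y x}.indicator (fun _ => Real.exp (m * (t + k + 1))) x := fun x => by
    have h0 : ∀ k ∈ Finset.range N,
        0 ≤ {x | t + k ≤ y x}.indicator (fun _ => Real.exp (m * (t + k + 1))) x := fun k _ =>
      indicator_nonneg (fun _ _ => (Real.exp_pos _).le) x
    rcases le_total (y x) t with h | h
    · exact le_add_of_le_of_nonneg (Real.exp_le_exp.2 (mul_le_mul_of_nonneg_left h hm.le))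
        (Finset.sum_nonneg h0)
    · have h1 := Nat.floor_le (sub_nonneg.2 h)
      have h2 := Nat.lt_floor_add_one (y x - t)
      have h3 : ⌊y x - t⌋₊ ∈ Finset.range N := Finset.mem_range.2 (Nat.lt_succ_of_le
        (Nat.floor_le_floor (sub_le_sub_right ((le_abs_self _).trans (hB x)) t)))
      refine le_add_of_nonneg_of_le (Real.exp_pos _).le (le_trans ?_ (Finset.single_le_sum h0 h3))
      rw [indicator_of_mem (show x ∈ {x' | t + (⌊y x - t⌋₊ : ℝ) ≤ y x'} from by
        change t + _ ≤ y x
        linarith)]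
      exact Real.exp_le_exp.2 (mul_le_mul_of_nonneg_left (by linarith) hm.le)
  have hsum := integrable_finsetSum (Finset.range N) fun k _ => hI k
  refine (integral_mono_of_nonneg (ae_of_all _ fun x => (Real.exp_pos _).le)
    ((integrable_const _).add hsum) (ae_of_all _ hpt)).trans ?_
  rw [integral_add' (integrable_const _) hsum, integral_const, smul_eq_mul, mul_comm,
    integral_finsetSum _ fun k _ => hI k]
  refine add_le_add le_rfl ?_
  have e1 : Real.exp (-1) < 1 := Real.exp_lt_one_iff.2 (by norm_num)
  have e2 := (summable_geometric_of_lt_one (Real.exp_pos _).le e1).sum_le_tsum (Finset.range N)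
    fun k _ => pow_nonneg (Real.exp_pos _).le k
  rw [tsum_geometric_of_lt_one (Real.exp_pos _).le e1] at e2
  refine le_trans ?_ (mul_le_mul_of_nonneg_left e2 (by positivity))
  rw [Finset.mul_sum]
  refine Finset.sum_le_sum fun k _ => ?_
  rw [integral_indicator_const _ (hS k), smul_eq_mul]
  have e3 := (hT (t + k) (le_add_of_nonneg_right (Nat.cast_nonneg k))).trans
    (mul_le_mul_of_nonneg_right (le_abs_self A) (Real.exp_pos _).le)
  refine (mul_le_mul_of_nonneg_right e3 (Real.exp_pos _).le).trans (le_of_eq ?_)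
  rw [mul_assoc, mul_assoc, ← Real.exp_nat_mul, ← Real.exp_add, ← Real.exp_add]
  exact congrArg _ (congrArg _ (by ring))

end Pool.Agent.Lib.ZK
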