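import Pool.Agent.Lib.ZK.Blue

/-! The Ricci form of a solution of the twisted equation. -/

open scoped Classical Topology ContDiff ComplexOrder Matrix
open Set MeasureTheory Filter

noncomputable section

namespace Pool.Agent.Lib.ZK

open Pool.Agent.Lib.HS32

theorem st_RIC (hPSI : St_PSI) : St_RIC := by
  intro n M H ϑ C₀ p C q η V t E a χ l w hp hD hB hS
  obtain ⟨hps, -, hs01, hhs, -⟩ := hPSI n M p t E a hp.le hD.env.sm hD.sa
  have hG := hS.kae.toMet
  have hH := hD.kae.toMet
  have hric := ((mHES n M).2.2.2.2.2.2.2.2.2 _ H hG hH).2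
  have hlog : (fun x => Real.log (M.dq H ((p + 1) • ϑ + M.hs w) x)) =
      fun x => Real.log V + (w x - (ps M p E a t x + χ x)) := by
    funext x
    rw [hS.eq x, Real.log_mul hS.vp.ne' (Real.exp_pos _).ne', Real.log_exp]
  have hwF : M.Sm fun x => w x - (ps M p E a t x + χ x) := hS.sm.sub hS.sF
  intro e he z hz
  have h1 := ((mLAP n M (fun _ => Real.log V) _ (Mf.sm_const _) hwF).1 (Real.log V) e he z hz)
  have h2 := ((mLAP n M w _ hS.sm hS.sF).1 0 e he z hz).2.2.1
  have h3 := ((mLAP n M _ χ hps hB.sm).1 0 e he z hz).2.1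
  have h4 := hric e he z hz
  rw [hlog, h1.2.1, h1.1, h2, h3, hhs e he z hz] at h4
  have p1 := hB.ad e he z hz
  have p2 := Mf.psd_rsmul (hD.env.kae.toMet.nonneg e he z hz)
    (mul_nonneg hp.le (sub_nonneg.2 (hs01 (e.symm z)).2.le))
  have p3 := Mf.psd_rsmul (hD.pa e he z hz) (mul_nonneg hp.le (hs01 (e.symm z)).1.le)
  have hsum := (p1.add p2).add p3
  have key : M.ric ((p + 1) • ϑ + M.hs w) e z -
      (fm M (fun x => p * sg M E a t x * (1 - sg M E a t x))
        (M.ds (fun x => E x - a x) fun x => E x - a x) - ((p + 1) • ϑ + M.hs w) - fm M l H) e z =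
      (ϑ + M.ric H + M.hs χ + fm M l H) e z - (0 : M.Fam (Mat n)) e z +
        (p * (1 - sg M E a t (e.symm z))) • ((ϑ + M.hs E) e z - (0 : M.Fam (Mat n)) e z) +
        (p * sg M E a t (e.symm z)) • ((ϑ + M.hs a) e z - (0 : M.Fam (Mat n)) e z) := by
    rw [h4]
    simp only [fm, Pi.add_apply, Pi.sub_apply, Pi.smul_apply, Pi.zero_apply]
    module
  rw [key]
  exact hsum

end Pool.Agent.Lib.ZK
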