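import Pool.Agent.Lib.ZK.Blue
import Pool.Agent.Lib.ZK49.Tay

/-! Subsolutions by finite differences. -/

open scoped Classical Topology ContDiff ComplexOrder Matrix
open Set Filter

noncomputable section

namespace Pool.Agent.Lib.ZK

open Pool.Agent.Lib.HS32

theorem SUB.lg {n : ℕ} {M : Mf n} {H α : M.Fam (Mat n)} {V : ℝ} {F w : M.X → ℝ}
    (h : Sol M H α V F w) (x : M.X) :
    Real.log (M.dq H (α + M.hs w) x) = Real.log V + (w x - F x) := by
  rw [h.eq, Real.log_mul h.vp.ne' (Real.exp_pos _).ne', Real.log_exp]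

theorem st_SUB (hPSI : St_PSI) : St_SUB := by
  intro n M _ H α p V E a χ w hp hH hα hE ha hS
  have lip : ∀ s t x, w s x - w t x ≤ p * |s - t| := fun s t x => by
    rw [← one_mul (w s x - w t x)]
    refine ZK49.cmp hH (hS s).sm (hS t).sm (hS s).kae.toMet zero_le_one (fun x => ?_) x
    have := (abs_le.1 ((hPSI n M p t E a hp.le hE ha).2.2.2.2.2.2.1 s x)).2
    rw [SUB.lg (hS s), SUB.lg (hS t)]
    linarith
  refine ⟨fun s t x => abs_sub_le_iff.2
    ⟨lip s t x, (lip t s x).trans_eq (congrArg (p * ·) (abs_sub_comm _ _))⟩, ?_⟩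
  intro t u ζ hu hζ he hk
  have hG := (hS t).kae.toMet
  have hw := (hS t).sm
  have hv := hζ.const_mul (1 / 2)
  obtain ⟨C, h₀, C0, h0, hT⟩ := ZK49.tay hG ((mHES n M).1 u hu).toForm ((mHES n M).1 _ hv).toForm
  refine ⟨C + p, h₀, h0, fun r hr x => ?_⟩
  obtain ⟨m, hm⟩ := hT r hr
  have hs := (hw.add (hu.const_mul r)).add (hv.const_mul (r ^ 2))
  have e : M.All fun e z => (α + M.hs fun x => w t x + r * u x + r ^ 2 * (1 / 2 * ζ x)) e z =
      (α + M.hs (w t) + r • M.hs u + r ^ 2 • M.hs fun x => 1 / 2 * ζ x) e z := fun e he z hz => by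
    simp only [Pi.add_apply, Pi.smul_apply]
    rw [((mLAP n M _ _ (hw.add (hu.const_mul r)) (hv.const_mul _)).1 0 e he z hz).2.1,
      ((mLAP n M _ _ hw (hu.const_mul r)).1 0 e he z hz).2.1,
      ((mLAP n M _ _ hu hu).1 r e he z hz).2.2.2.1, ((mLAP n M _ _ hv hu).1 _ e he z hz).2.2.2.1]
    abel
  have f := ZK49.cmp (l := 1) (c := (C + p) * |r| ^ 3) hH hs (hS (t + r)).sm (m.congr e)
    zero_le_one (fun x => by
      have i := (mINV n M H hH).2.2.2.2.2.2.2 _ hG
      have j := (abs_le.1 (hm x)).1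
      have j1 : M.tr _ _ x = _ := (((mLAP n M _ u hζ hu).2.2 _ hG).2.2.1 x (1 / 2)).2.2.2.1
      have j3 : M.tr (α + M.hs (w t)) (M.hs u) x = u x - p * sg M E a t x := by
        rw [← he x, Mf.lap]; ring
      have j4 := (hPSI n M p t E a hp.le hE ha).2.2.2.2.2.2.2 r x
      have j6 := mul_nonneg (sq_nonneg r) (hk x)
      rw [Mf.dq_congr (fun _ _ _ _ => rfl) e, i.2.2.1 _ m.toForm x, Real.log_mul (i.1 x).ne'
        (((mINV n M _ hG).2.2.2.2.2.2.2 _ m).1 x).ne', SUB.lg (hS t), SUB.lg (hS (t + r))]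
      rw [j1, j3] at j
      linarith) x
  linarith

end Pool.Agent.Lib.ZK
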