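import Pool.Agent.Lib.ZK.Blue

/-! Row TAIL of the project zk: the tail estimate from the mass of the density. -/

open scoped Classical Topology
open Set MeasureTheory Filter

noncomputable section

namespace Pool.Agent.Lib.ZK

open Pool.Agent.Lib.HS32

theorem st_TAIL (hPSI : St_PSI) : St_TAIL := by
  intro n M _ H α p V C B T E a χ w hp hH hE ha hχ hB hS hw
  obtain ⟨-, -, -, -, -, h6, -, -⟩ := hPSI n M p T E a hp.le hE ha
  have hint : Integrable (fun x => Real.exp (w x - (ps M p E a T x + χ x))) (M.mu H) := by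
    by_contra h
    have h1 := hS.one
    rw [integral_undef h] at h1
    exact zero_ne_one h1
  set ε : ℝ := Real.exp ((p - 1) * T - (C + B + 1 + p)) with hε
  have hε0 : 0 < ε := Real.exp_pos _
  have hM := mul_meas_ge_le_integral_of_nonneg
    (Eventually.of_forall fun x => (Real.exp_pos (w x - (ps M p E a T x + χ x))).le) hint ε
  rw [hS.one] at hM
  have hsub : {x | T ≤ E x - a x} ⊆ {x | ε ≤ Real.exp (w x - (ps M p E a T x + χ x))} := by
    intro x hx
    have hx' : T ≤ E x - a x := hx
    have h1 := (h6 x).2.2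
    rw [max_eq_left (by linarith)] at h1
    have h2 := hw x
    have h3 := hχ x
    have h4 := hB x
    show ε ≤ _
    exact Real.exp_le_exp.2 (by linarith)
  have hfin : M.mu H {x | ε ≤ Real.exp (w x - (ps M p E a T x + χ x))} ≠ ⊤ :=
    (hint.measure_ge_lt_top hε0).ne
  have h7 := measureReal_mono hsub hfin
  have h8 : Real.exp (C + B + 1 + p) * Real.exp (-((p - 1) * T)) = ε⁻¹ := by
    rw [hε, ← Real.exp_add, ← Real.exp_neg]
    congr 1
    ring
  rw [h8, ← one_div, le_div_iff₀ hε0]
  nlinarith [mul_le_mul_of_nonneg_left h7 hε0.le]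

end Pool.Agent.Lib.ZK
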