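import Pool.Agent.Lib.ZK.Blue

/-! The theorem from the rows. -/

open scoped Classical Topology ContDiff ComplexOrder Matrix
open Set MeasureTheory Filter

noncomputable section

namespace Pool.Agent.Lib.ZK

open Pool.Agent.Lib.HS32

theorem st_TOP (hEXT : St_EXT) (hLAY : St_LAY) (hKIT : St_KIT) (hENV : St_ENV) (hFAM : St_FAM)
    (hPSI : St_PSI) (hEXS : St_EXS) (hUP : St_UP) (hLOW : St_LOW) (hTAIL : St_TAIL)
    (hCVX : St_CVX) : St_ZK := by
  intro n M _ H θ hn hH hθ hN hK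
  obtain ⟨C, q, hq, hb⟩ := hK
  obtain ⟨k1, ⟨C₀, k2⟩, k3, k4, -⟩ := hKIT n M H θ hH hθ
  obtain ⟨-, hfin, -, -, hint, -⟩ := mMU n M H hH.toMet
  have ex : ∀ e : ℝ, ∃ φ, 0 < e → Env M (θ + e • H) φ e := fun e => by
    by_cases he : 0 < e
    · obtain ⟨ψ, h1, h2⟩ := hN e he
      exact (hENV n M H _ ψ e hn hH (k1 e).1 h1 h2 he).imp fun _ h _ => h
    · exact ⟨0, fun h => absurd h he⟩
  choose a ha using ex
  refine ⟨a, fun e he => ha e he.1, fun e he e' he' => (ha e he.1).mx _ (ha e' he'.1).sm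
    (k3 e e' _ he'.2 (ha e' he'.1).sm (ha e' he'.1).kae).1.toMet (ha e' he'.1).np, fun m hm => ?_⟩
  have hp : 0 < m + 2 := by linarith
  obtain ⟨C₁, hC₁, u⟩ := hUP n M H C₀ (m + 2) C hH hp
  obtain ⟨C₄, hC₄, lo⟩ := hLOW n M H C₀ (m + 2) C q hn hH hp hq
  obtain ⟨A, hA⟩ : ∃ A, A = C₁ + C₄ + (m + 2 + 1) := ⟨_, rfl⟩
  have hA0 : 0 < A := by linarith
  obtain ⟨η, hη, lo⟩ := lo (2 * A) (by linarith)
  obtain ⟨e, he, hf⟩ := hFAM n M H θ a η hH hθ (fun e he => ha e he.1) hη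
  have hE := ha e he.1
  obtain ⟨B, -, hB⟩ := hE.sm.exists_bound
  have hB' : ∀ x, -B ≤ a e x := fun x => (abs_le.1 (hB x)).1
  obtain ⟨K, hK⟩ := hLAY M.X (M.mu H) m (Real.exp (C + B + 1 + (m + 2))) (2 * A) hm
  refine ⟨e, he, Real.exp (m * B) * K, fun e' he' => ?_⟩
  have hE' := ha e' he'.1
  have hD : Dat M H (θ + e • H) C₀ (a e) (a e') := ⟨hn, hH, (k1 e).1, k2 e he.2,
    ⟨hE.sm, hE.kae, hE.np, fun ψ h1 h2 h3 x => (hE.mx ψ h1 h2 h3 x).trans (by linarith [he.2])⟩,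
    hE'.sm, (k3 e e' _ he'.2 hE'.sm hE'.kae).2, hE'.np⟩
  obtain ⟨j1, -, -, -, -, j6⟩ := hKIT n M H _ hH hD.clo
  have hS := j6 (m + 2 + 1) 1 _ (by linarith) hD.env
  obtain ⟨V, hV⟩ := hEXS n M H _ _ hn hH (j1 (m + 2 + 1)).2 hS.sm hS.kae
  have hy := hE.sm.sub hE'.sm
  obtain ⟨B', -, hy'⟩ := hy.exists_bound
  have key := hK _ B' hy.continuous.measurable hy' fun T hT => by
    have hT0 : 0 < T := by linarith
    obtain ⟨η', hη', cv⟩ := hCVX n M H _ C₀ (m + 2) C q T (T ^ 2)⁻¹ _ _ hp hq (by positivity) hD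
    obtain ⟨χ, l, hχ⟩ := hb η' hη'
    choose w hw using fun t => hV _ ((hPSI n M (m + 2) t _ _ hp.le hE.sm hE'.sm).1.add hχ.sm)
    have h1 := hTAIL n M H _ (m + 2) V C B T _ _ χ (w T) hp hH.toMet hE.sm hE'.sm hχ.ub hB' (hw T)
      fun x => by
        obtain ⟨c1, c2⟩ := cv V χ l w (k4 e C q η' χ l he.1.le hχ) hw x
        obtain ⟨u1, u2⟩ := u _ V 0 _ _ χ (w 0) hD hχ.ub le_rfl (hw 0)
        have u3 := (u2 _ u1 x).1
        have l1 := lo _ V _ _ χ (w (2 * A)) hD hχ.sm hχ.ub hχ.lq (hf e' he') (hw _) x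
        have h2 := hEXT (fun t => w t x - (m + 2 + 1) * a e x) (T ^ 2)⁻¹ T (2 * A) A (m + 2)
          (c1.sub continuous_const) (by positivity) (by linarith) hT hA0.le
          (fun s hs => (c2 s hs).imp fun c => Exists.imp fun r hr =>
            ⟨hr.1, fun h hh => by linarith [hr.2 h hh]⟩) (by linarith) (by linarith)
        rw [inv_mul_cancel₀ (by positivity), mul_div_cancel_left₀ _ (by positivity)] at h2
        linarith
    rwa [show m + 2 - 1 = m + 1 by ring] at h1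
  refine le_trans ?_ (mul_le_mul_of_nonneg_left key (Real.exp_pos _).le)
  rw [← integral_const_mul]
  have c1 := hE.sm.continuous
  have c2 := hE'.sm.continuous
  refine integral_mono (hint ℝ _ (by fun_prop)) (hint ℝ _ (by fun_prop)) fun x => ?_
  beta_reduce
  rw [← Real.exp_add]
  exact Real.exp_le_exp.2 (by nlinarith [hB' x])

/-- The case without boundary. -/
theorem klt_zero {n : ℕ} (M : Mf n) (H : M.Fam (Mat n)) : Klt M H (-M.ric H) := by
  refine ⟨|∫ _, (1 : ℝ) ∂M.mu H|, 2, one_lt_two, fun η hη => ⟨fun _ => 0, fun _ => 0,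
    Mf.sm_const 0, Mf.sm_const 0, fun _ => abs_nonneg _, fun _ => ⟨le_rfl, abs_nonneg _⟩,
    fun e he z hz => ?_, by simpa using le_abs_self _, by simpa using hη.le⟩⟩
  have h := ((mLAP n M _ _ (Mf.sm_const (0 : ℝ)) (Mf.sm_const (0 : ℝ))).1 0 e he z hz).1
  simp [fm, h, Matrix.PosSemidef.zero]

end Pool.Agent.Lib.ZK
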