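import Pool.Agent.Lib.ZK.Blue
import Pool.Agent.Lib.ZK.N_Kit

/-! The inequality of Bochner for the first variation. -/

open scoped Classical Topology ContDiff ComplexOrder Matrix

noncomputable section

namespace Pool.Agent.Lib.ZK

open Pool.Agent.Lib.HS32

namespace NBOZ

variable {n : ℕ} {M : Mf n} {G H D : M.Fam (Mat n)}

theorem ip_le (hG : M.Met G) (hH : M.Met H) (hD : M.Le 0 D) (x : M.X) :
    M.ip G D H x ≤ M.tr G H x * M.tr G D x := by
  have h := HS76.tr_mul_mono (HS76.conj_inv_psd (hG.ev_pos x)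
    (show (M.ev D x).PosSemidef by simpa [Mf.ev] using Mf.AllOn.ch hD x))
    (HS76.le_tr_smul (hG.ev_pos x) (hH.ev_pos x).posSemidef le_rfl)
  rw [Matrix.mul_smul, Matrix.trace_smul, smul_eq_mul, Complex.re_ofReal_mul] at h
  rw [← hG.ip_self (S := D)]
  exact h

theorem ip_hs (hG : M.Met G) (hD : M.Form D) (x : M.X) : 0 ≤ M.ip G D D x := by
  have h := HS76.tr2_nonneg (hG.ev_pos x) (show (M.ev D x).IsHermitian from Mf.AllOn.ch hD.herm x)
  rwa [← Matrix.mul_assoc] at h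

end NBOZ

theorem n_BOZ (hPSI : St_PSI) : St_BOZ := by
  intro n M G H p t E a l u hp hG hH hE ha _ hu l0 hR he x
  obtain ⟨-, s2, s3, -, s5, -⟩ := hPSI n M p t E a hp.le hE ha
  have hD := ((mHES n M).2.2.1 u hu).2
  refine ⟨NBOZ.ip_hs hG.toMet ((mHES n M).1 u hu).toForm x, ?_⟩
  have h1 := ZK26.boch n M G u hG hu x
  have h2 := NK.ip_mono hG.toMet hD hR x
  have h3 := NK.gr_sq_le hG.toMet (hE.sub ha) hu x
  have h4 : M.ip G (M.ds u u) H x ≤ M.tr G H x * M.gr G u u x := NBOZ.ip_le hG.toMet hH hD x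
  have h5 := (((mLAP n M _ _ s2 hu).2.2 G hG.toMet).2.2.2.1 (fun r => p * r)
    (fun _ => by fun_prop) x).2
  rw [show deriv (fun r : ℝ => p * r) (sg M E a t x) = p by simp, s5 G u hG.toMet hu x] at h5
  rw [show M.lap G u = fun x => u x - p * sg M E a t x from funext fun x => by linarith [he x],
    NK.gr_sub hu (Mf.Sm.const_mul p s2), h5, Mf.ip_comm (S := M.ric G)] at h1
  unfold fm at h2
  rw [Mf.ip_sub, Mf.ip_sub, NK.ip_fsmul (fun x => p * sg M E a t x * (1 - sg M E a t x)),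
    NK.ip_fsmul, hG.toMet.ip_self, Mf.ip_comm] at h2
  have hq : 0 ≤ p * sg M E a t x * (1 - sg M E a t x) :=
    mul_nonneg (mul_nonneg hp.le (s3 x).1.le) (sub_nonneg.2 (s3 x).2.le)
  have h6 := mul_le_mul_of_nonneg_left h3 hq
  have h7 := mul_le_mul_of_nonneg_left h4 (l0 x)
  have h8 := mul_nonneg hq (sq_nonneg (1 + M.gr G (fun x => E x - a x) u x))
  have h9 : M.tr G (M.ds u u) x = M.gr G u u x := rfl
  rw [h9] at h2
  nlinarith

end Pool.Agent.Lib.ZK
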