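import Pool.Agent.Lib.ZK.Blue
import Pool.Agent.Lib.HS.Top

/-! Convexity in the parameter. -/

open scoped Classical Topology ContDiff ComplexOrder Matrix
open Set MeasureTheory Filter

noncomputable section

namespace Pool.Agent.Lib.ZK

open Pool.Agent.Lib.HS32

theorem n_CVX (hRV : HS.St_RESV)
    (hKIT : St_KIT) (hPSI : St_PSI) (hCZB : St_CZB) (hRIC : St_RIC) (hBOZ : St_BOZ)
    (hCLU : St_CLU) (hGRD : St_GRD) (hBAR : St_BAR) (hSUB : St_SUB) : St_CVX := by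
  intro n M _ H ϑ C₀ p C q T κ E a hp hq hκ hD
  obtain ⟨k1, -, -, -, k5, k6⟩ := hKIT n M H ϑ hD.kae hD.clo
  have hp1 : 0 < p + 1 := by linarith
  have hα := (k1 (p + 1)).2
  have hE := k6 (p + 1) 1 E hp1 hD.env
  obtain ⟨B, K, hB⟩ := hCZB n M H ϑ C₀ p C q T E a hp hq hD
  obtain ⟨S, hS0, hS⟩ := hCLU n M H _ _ C B hD.pos hD.kae hα hE.sm hE.kae
  obtain ⟨Z, hZ0, hZ⟩ := hGRD (|C| * S + p) p (by positivity)
  obtain ⟨A, hA0, hA⟩ := hBAR n M H _ _ _ _ q K B C hD.pos hD.kae hα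
    (k5 (p + 1) C₀ hp1.le hD.le) hE hq
  obtain ⟨η, hη, hβ⟩ := hA (κ / A) (S * Z) (by positivity) (by positivity)
  refine ⟨η, hη, fun V χ l w hb hw x => ?_⟩
  obtain ⟨s1, s2⟩ := hSUB n M H _ p V E a χ w hp hD.kae.toMet hα hD.env.sm hD.sa hw
  refine ⟨(LipschitzWith.of_dist_le_mul (K := ⟨p, hp.le⟩) fun s t => s1 s t x).continuous,
    fun s hs => ?_⟩
  obtain ⟨-, p2, p3, -⟩ := hPSI n M p s E a hp.le hD.env.sm hD.sa
  have hG := (hw s).kae
  obtain ⟨b1, b2⟩ := hB V χ (w s) s hs hb.sm hb.ub hb.lq (hw s)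
  obtain ⟨u, hu, hue⟩ := hRV n M _ (fun y => p * sg M E a s y) 1 hD.pos hG
    (p2.const_mul p) one_pos
  simp only [one_mul] at hue
  have hr := hRIC n M H ϑ C₀ p C q η V s E a χ l (w s) hp hD hb (hw s)
  have hz := hBOZ n M _ H p s E a l u hp hG hD.kae.toMet hD.env.sm hD.sa hb.sl hu
    (fun y => (hb.l0 y).1) hr hue
  have hP : ∀ y, 0 ≤ p * sg M E a s y * (1 - sg M E a s y) ∧
      p * sg M E a s y * (1 - sg M E a s y) ≤ p := fun y => by
    obtain ⟨q1, q2⟩ := p3 y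
    have q3 : 0 ≤ sg M E a s y * (1 - sg M E a s y) := mul_nonneg q1.le (by linarith)
    have q4 : sg M E a s y * (1 - sg M E a s y) ≤ 1 := by nlinarith
    rw [mul_assoc]
    exact ⟨mul_nonneg hp.le q3, mul_le_of_le_one_right hp.le q4⟩
  have htr := hS (w s) _ _ l (hw s).sm hG b1 (hD.env.sm.sub hD.sa) (fun y => (hP y).1)
    (fun y => (hb.l0 y).2) hr
  obtain ⟨-, -, l3⟩ := mLAP n M u u hu hu
  obtain ⟨-, zs, l4, -⟩ := l3 _ hG.toMet
  have z0 : ∀ y, 0 ≤ M.gr ((p + 1) • ϑ + M.hs (w s)) u u y := fun y => (l4 y 0).2.2.2.2.2.2.1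
  have hgr := hZ n M _ u hG.toMet hu (fun y => by
    rw [hue, abs_of_nonneg (mul_nonneg hp.le (p3 y).1.le)]
    exact mul_le_of_le_one_right hp.le (p3 y).2.le) fun y => by
      obtain ⟨c1, c2⟩ := hz y
      have c3 : l y * M.tr ((p + 1) • ϑ + M.hs (w s)) H y ≤ |C| * S :=
        mul_le_mul ((hb.l0 y).2.trans (le_abs_self C)) (htr y).2 (htr y).1 (abs_nonneg C)
      have c4 := mul_le_mul_of_nonneg_right c3 (z0 y)
      have c5 : 0 ≤ |C| * S := by positivity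
      have c6 := mul_nonneg hp.le (z0 y)
      have := (hP y).2
      have := z0 y
      nlinarith
  obtain ⟨β, β1, β2, β3⟩ := hβ V _ (w s) l (hw s) b1 b2 hb.sl hb.l0 hb.sml
  obtain ⟨-, -, l5⟩ := mLAP n M _ β zs β1
  obtain ⟨-, -, l6, -⟩ := l5 _ hG.toMet
  obtain ⟨c, r, hr0, hc⟩ := s2 s u _ hu (zs.sub β1) hue fun y => by
    rw [(l6 y 0).2.2.1]
    have c2 := (hz y).2
    have c3 : M.tr ((p + 1) • ϑ + M.hs (w s)) H y * M.gr ((p + 1) • ϑ + M.hs (w s)) u u y ≤ S * Z :=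
      mul_le_mul (htr y).2 (hgr y) (z0 y) hS0
    have c4 := mul_le_mul_of_nonneg_left c3 (hb.l0 y).1
    have := β3 y
    nlinarith
  refine ⟨2 * c, r, hr0, fun h hh => ?_⟩
  have a1 := hc h (by rw [abs_of_pos hh.1]; exact hh.2) x
  have a2 := hc (-h) (by rw [abs_neg, abs_of_pos hh.1]; exact hh.2) x
  rw [abs_neg, ← sub_eq_add_neg] at a2
  rw [abs_of_pos hh.1] at a1 a2
  have a3 : β x ≤ κ := by simpa [div_mul_cancel₀ κ hA0.ne'] using β2 x
  have a4 := mul_le_mul_of_nonneg_left (sub_le_sub (z0 x) a3) (sq_nonneg h)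
  nlinarith

end Pool.Agent.Lib.ZK
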