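import Pool.Agent.Lib.ZK.N_BAR
import Pool.Agent.Lib.ZK.N_BOZ
import Pool.Agent.Lib.ZK.B_CLU
import Pool.Agent.Lib.ZK.N_CVX
import Pool.Agent.Lib.ZK.B_CZB
import Pool.Agent.Lib.ZK.N_ENV
import Pool.Agent.Lib.ZK.N_EXS
import Pool.Agent.Lib.ZK.B_EXT
import Pool.Agent.Lib.ZK.B_FAM
import Pool.Agent.Lib.ZK.B_GRD
import Pool.Agent.Lib.ZK.B_KIT
import Pool.Agent.Lib.ZK.B_LAY
import Pool.Agent.Lib.ZK.B_LOW
import Pool.Agent.Lib.ZK.B_MES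
import Pool.Agent.Lib.ZK.N_PSI
import Pool.Agent.Lib.ZK.B_RIC
import Pool.Agent.Lib.ZK.B_SUB
import Pool.Agent.Lib.ZK.B_TAIL
import Pool.Agent.Lib.ZK.B_TOP
import Pool.Agent.Lib.ZK.N_UNI
import Pool.Agent.Lib.ZK.B_UP

/-! Assembly of the project zk. -/

namespace Pool.Agent.Lib.ZK

theorem aUP : St_UP := st_UP st_KIT n_PSI

theorem aLOW (hA : HS.St_AUBIN) : St_LOW := st_LOW st_MES st_KIT n_PSI (n_UNI hA) aUP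

theorem aCVX (hA : HS.St_AUBIN) (hR : HS.St_RESV) : St_CVX :=
  n_CVX hR st_KIT n_PSI (st_CZB st_KIT n_PSI aUP (n_UNI hA)) (st_RIC n_PSI) (n_BOZ n_PSI) st_CLU
    st_GRD (n_BAR hA st_MES (n_UNI hA)) (st_SUB n_PSI)

theorem zk0 (hA : HS.St_AUBIN) (hR : HS.St_RESV) : St_ZK :=
  st_TOP st_EXT st_LAY st_KIT (n_ENV hA) (st_FAM st_KIT) n_PSI (n_EXS hA) aUP (aLOW hA)
    (st_TAIL n_PSI) (aCVX hA hR)

end Pool.Agent.Lib.ZK
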