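import Pool.Agent.Lib.ZK.All0
import Pool.Agent.Lib.HS21.All

/-! The theorem of the project zk without hypotheses, first assembly. -/

namespace Pool.Agent.Lib.ZK

theorem zk1 : St_ZK := zk0 HS21.st_AUBIN HS21.st_RESV

end Pool.Agent.Lib.ZK
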