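import Pool.Agent.Lib.ZK.Blue
import Pool.Agent.Lib.HS21.All

/-! Row EXS of the project zk: existence of the normalised twisted solution. -/

open scoped Classical Topology ContDiff ComplexOrder Matrix
open Set MeasureTheory Filter

noncomputable section

namespace Pool.Agent.Lib.ZK

open Pool.Agent.Lib.HS32

theorem st_EXS : St_EXS := by
  intro n M _ H α φ hn hH hα hφ hG
  have hI := mINV n M H hH.toMet
  obtain ⟨hpos, -, hmul, -⟩ := hI.2.2.2.2.2.2.2 (α + M.hs φ) hG.toMet
  have hsm : M.Sm (M.dq H (α + M.hs φ)) := (hI.1 _ hG.toMet.toForm.toTen).2.2.2.1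
  have hV : 0 < ∫ x, M.dq H (α + M.hs φ) x ∂M.mu H := by
    have h1 := ((mMU n M H hH.toMet).2.2.2.2.2.2 (α + M.hs φ) hG.toMet).2.1 (fun _ => 1)
    have h2 := (mMU n M (α + M.hs φ) hG.toMet).2.2.2.1
    simp only [mul_one, integral_const, smul_eq_mul] at h1
    rw [← h1]
    exact h2
  refine ⟨∫ x, M.dq H (α + M.hs φ) x ∂M.mu H, fun F hF => ?_⟩
  set V := ∫ x, M.dq H (α + M.hs φ) x ∂M.mu H with hVd
  have hF' : M.Sm fun x => Real.log V + φ x - F x - Real.log (M.dq H (α + M.hs φ) x) :=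
    (((Mf.sm_const _).add hφ).sub hF).sub (hsm.log fun x => (hpos x).ne')
  obtain ⟨v, hv, hK, heq⟩ := HS21.st_AUBIN n M (α + M.hs φ) _ 1 hn hG hF' one_pos
  have hall : M.All fun e z =>
      (α + M.hs fun x => φ x + v x) e z = (α + M.hs φ + M.hs v) e z := fun e he z hz => by
    have := ((mLAP n M φ v hφ hv).1 0 e he z hz).2.1
    simp only [Pi.add_apply, this, add_assoc]
  have hdq : M.dq H (α + M.hs fun x => φ x + v x) = M.dq H (α + M.hs φ + M.hs v) :=
    Mf.dq_congr (fun _ _ _ _ => rfl) hall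
  have hE : ∀ x, M.dq H (α + M.hs φ + M.hs v) x = V * Real.exp (φ x + v x - F x) := fun x => by
    rw [hmul _ hK.toMet.toForm x, heq x]
    have h3 : 1 * v x + (Real.log V + φ x - F x - Real.log (M.dq H (α + M.hs φ) x)) =
        Real.log V + (φ x + v x - F x) - Real.log (M.dq H (α + M.hs φ) x) := by ring
    rw [h3, Real.exp_sub, Real.exp_add, Real.exp_log hV, Real.exp_log (hpos x)]
    field_simp [(hpos x).ne']
  refine ⟨fun x => φ x + v x, hV, hF, hφ.add hv, hK.congr hall, fun x => by rw [hdq, hE], ?_⟩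
  have hc := mCOH n M H (α + M.hs φ) v hH.toMet hG.toClo hv
  simp only [hE, integral_const_mul] at hc
  rw [← hVd] at hc
  exact mul_left_cancel₀ hV.ne' (hc.trans (mul_one V).symm)

end Pool.Agent.Lib.ZK
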