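import Pool.Agent.Lib.ZK.Blue
import Pool.Agent.Lib.ZK49.Tay
import Pool.Agent.Lib.HS.Top

/-! The barrier. -/

open scoped Classical Topology ContDiff ComplexOrder Matrix
open Set MeasureTheory Filter

noncomputable section

namespace Pool.Agent.Lib.ZK

open Pool.Agent.Lib.HS32

namespace NBAR

variable {n : ℕ} {M : Mf n}

theorem log_le {G : M.Fam (Mat n)} {v : M.X → ℝ} (hG : M.Met G) (hv : M.Met (G + M.hs v))
    (x : M.X) : Real.log (M.dq G (G + M.hs v) x) ≤ M.lap G v x := by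
  have h := HS76.log_det_le (hG.ev_pos x) (hv.ev_pos x)
  have e : M.tr G (G + M.hs v) x = n + M.lap G v x := by rw [Mf.tr_add, hG.tr_self]; rfl
  rw [Mf.dq, ← Mf.herm_det (hG.ev_pos x).1, ← Mf.herm_det (hv.ev_pos x).1, ← Complex.ofReal_div,
    Complex.ofReal_re, Real.log_div (Mf.pd_det_re (hv.ev_pos x)).ne'
      (Mf.pd_det_re (hG.ev_pos x)).ne']
  rw [Mf.tr] at e
  rw [e, Fintype.card_fin] at h
  linarith

theorem np [M.Cpt] {G : M.Fam (Mat n)} {v f : M.X → ℝ} (hG : M.Met G) (sv : M.Sm v)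
    (hv : M.Met (G + M.hs v)) (hf : ∀ x, 0 ≤ f x)
    (he : ∀ x, M.dq G (G + M.hs v) x = Real.exp (1 * v x + f x)) (x : M.X) : v x ≤ 0 := by
  obtain ⟨y, hy⟩ := sv.exists_max
  have h1 := log_le hG hv y
  have h2 := ((((mLAP n M v v sv sv).2.2 G hG).2.2.1 y 0).2.2.2.2.2.2.2.2.1
    (Eventually.of_forall hy)).1
  rw [he, Real.log_exp] at h1
  linarith [hy x, hf y]

theorem sol [M.Cpt] {H α : M.Fam (Mat n)} {V : ℝ} {F w v f : M.X → ℝ} (hH : M.Met H)
    (s : Sol M H α V F w) (sv : M.Sm v) (sf : M.Sm f) (hv : M.Kae (α + M.hs w + M.hs v))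
    (he : ∀ x, M.dq (α + M.hs w) (α + M.hs w + M.hs v) x = Real.exp (1 * v x + f x)) :
    Sol M H α V (fun x => F x - f x) fun x => w x + v x := by
  have e : M.All fun e z => (α + M.hs fun x => w x + v x) e z = (α + M.hs w + M.hs v) e z :=
    fun e he z hz => by
      simp only [Pi.add_apply]
      rw [((mLAP n M w v s.sm sv).1 0 e he z hz).2.1, add_assoc]
  have q : ∀ x, M.dq H (α + M.hs w + M.hs v) x =
      V * Real.exp (w x + v x - (F x - f x)) := fun x => by
    rw [((mINV n M H hH).2.2.2.2.2.2.2 _ s.kae.toMet).2.2.1 _ hv.toForm, s.eq, he, mul_assoc,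
      ← Real.exp_add]
    congr 2
    ring
  refine ⟨s.vp, s.sF.sub sf, s.sm.add sv, hv.congr e, fun x => ?_, ?_⟩
  · rw [Mf.dq_congr (fun _ _ _ _ => rfl) e, q]
  · have c := mCOH n M H _ v hH s.kae.toClo sv
    simp only [q, s.eq, integral_const_mul, s.one] at c
    exact mul_left_cancel₀ s.vp.ne' c

theorem markov {X : Type} [MeasurableSpace X] {μ : Measure X} [IsFiniteMeasure μ] {l : X → ℝ}
    {k η : ℝ} (hk : 0 < k) (hl : ∀ x, 0 ≤ l x) (il : Integrable l μ) (h : ∫ x, l x ∂μ ≤ η * k) :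
    μ.real {x | 1 < l x / k} ≤ η := by
  have a := mul_meas_ge_le_integral_of_nonneg (ae_of_all _ hl) il k
  have b : μ.real {x | 1 < l x / k} ≤ μ.real {x | k ≤ l x} :=
    measureReal_mono fun x hx => ((one_lt_div hk).1 hx).le
  refine b.trans (le_of_mul_le_mul_left (a.trans (h.trans_eq (mul_comm _ _))) hk)

end NBAR

theorem n_BAR (hAU : HS.St_AUBIN) (hMES : St_MES) (hUNI : St_UNI) : St_BAR := by
  intro n M _ H α φ C₀ b q K B C hn hH hα hle hE hq
  have mu := mMU n M H hH.toMet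
  have := mu.2.1
  have ig : ∀ f : M.X → ℝ, M.Sm f → Integrable f (M.mu H) := fun f hf =>
    mu.2.2.2.2.1 ℝ f hf.continuous
  obtain ⟨K', K0, hK⟩ := hMES M.X (M.mu H) 1 q ((1 + q) / 2) K one_pos (by linarith) (by linarith)
  obtain ⟨S, S0, hS⟩ := hUNI n M H C₀ b ((1 + q) / 2) K' hn hH (by linarith)
  obtain ⟨P, P0, hP⟩ := hE.sm.exists_bound
  set m : ℝ := (M.mu H).real univ + K' with hm
  have m0 : 0 < m := add_pos mu.2.2.2.1 K0
  refine ⟨P + 2 * |B| + S + |Real.log m|, by positivity, fun κ c hκ hc => ?_⟩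
  set k : ℝ := κ / (c + 1) with hk
  have k0 : 0 < k := by positivity
  obtain ⟨η, η0, hη⟩ := hK (C / k)
  refine ⟨η * k, by positivity, fun V F w l s hw hF sl hl il => ?_⟩
  have sf : M.Sm fun x => l x / k := sl.div (Mf.sm_const k) fun _ => k0.ne'
  have f0 : ∀ x, 0 ≤ l x / k := fun x => div_nonneg (hl x).1 k0.le
  obtain ⟨v, sv, hv, he⟩ := hAU n M _ _ 1 hn s.kae sf one_pos
  have v0 := NBAR.np s.kae.toMet sv hv.toMet f0 he
  have s' := NBAR.sol hH.toMet s sv sf hv he
  obtain ⟨D, -, hD⟩ := (s.sF.sub s.sm).exists_bound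
  have i1 := hη (fun x => l x / k) (fun x => F x - w x) D sf.continuous.measurable
    (s.sF.sub s.sm).continuous.measurable hD
    (by simpa only [← mul_neg, neg_sub] using hF)
    (NBAR.markov k0 (fun x => (hl x).1) (ig l sl) il)
  have mn : ∀ x, min (l x / k) (C / k) = l x / k := fun x =>
    min_eq_left (div_le_div_of_nonneg_right (hl x).2 k0.le)
  simp only [mn, one_mul] at i1
  have sg : M.Sm fun x => l x / k - (F x - w x) := sf.sub (s.sF.sub s.sm)
  have i2 := ig _ (sg.const_mul ((1 + q) / 2)).exp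
  have u := hS α V φ _ _ hα hle hE s' ((integral_mono
    (ig _ (((s.sm.add sv).sub (s.sF.sub sf)).const_mul ((1 + q) / 2)).exp) i2 fun x =>
      Real.exp_le_exp.2 (mul_le_mul_of_nonneg_left (by linarith [v0 x]) (by linarith))).trans i1)
  obtain ⟨y, hy⟩ := sv.exists_max
  have lo : 1 ≤ Real.exp (v y) * m := by
    rw [← s'.one]
    have a : ∫ x, Real.exp (w x + v x - (F x - l x / k)) ∂M.mu H ≤
        ∫ x, Real.exp (v y) * (1 + Real.exp ((1 + q) / 2 * (l x / k - (F x - w x)))) ∂M.mu H := by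
      refine integral_mono (ig _ ((s.sm.add sv).sub (s.sF.sub sf)).exp)
        (((integrable_const 1).add i2).const_mul _) fun x => ?_
      have e : w x + v x - (F x - l x / k) = v x + (l x / k - (F x - w x)) := by ring
      simp only [e, Real.exp_add]
      refine mul_le_mul (Real.exp_le_exp.2 (hy x)) ?_ (Real.exp_pos _).le (Real.exp_pos _).le
      rcases le_total (l x / k - (F x - w x)) 0 with h | h
      · linarith [Real.exp_le_one_iff.2 h, Real.exp_pos ((1 + q) / 2 * (l x / k - (F x - w x)))]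
      · linarith [Real.exp_le_exp.2 (show l x / k - (F x - w x) ≤
          (1 + q) / 2 * (l x / k - (F x - w x)) by nlinarith)]
    refine a.trans ?_
    rw [integral_const_mul, integral_add (integrable_const 1) i2, integral_const, smul_eq_mul,
      mul_one]
    gcongr
    exact add_le_add le_rfl i1
  have lo' : 0 ≤ v y + Real.log m := by
    have := Real.log_nonneg lo
    rwa [Real.log_mul (Real.exp_pos _).ne' m0.ne', Real.log_exp] at this
  refine ⟨fun x => -κ * v x, sv.const_mul _, fun x => ?_, fun x => ?_⟩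
  · have a := u x y
    have b1 := abs_le.1 (hw x)
    have b2 := abs_le.1 (hw y)
    have b3 := abs_le.1 (hP x)
    have : -v x ≤ P + 2 * |B| + S + |Real.log m| := by
      linarith [le_abs_self B, le_abs_self (Real.log m), b1.1, b1.2, b2.1, b2.2, b3.1]
    nlinarith
  · have a := NBAR.log_le s.kae.toMet hv.toMet x
    rw [he, Real.log_exp] at a
    rw [(((mLAP n M v v sv sv).2.2 _ s.kae.toMet).2.2.1 x (-κ)).2.2.2.1]
    have e : κ * (l x / k) = (c + 1) * l x := by rw [hk]; field_simp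
    nlinarith [(hl x).1, mul_le_mul_of_nonneg_left a hκ.le]

end Pool.Agent.Lib.ZK
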